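import Mathlib
import Pool.Agent.Helper12.LW.Defs
import Pool.Agent.Helper84.FL.Geom

/-!
# The wall state of a body with five facets, in symmetric form

Five normals `n 0, n 1, n 2, nC, nD` with sum zero, heights `b 0, b 1, b 2, bC, bD` with sum one, `nD = - ∑ ρ i n i`
with `0 ≤ ρ ≤ 1`. The form is `∑ (n i · x) ^ 2 + (nC · x) ^ 2 + (nD · x) ^ 2 + 2 κ (nC · x) (nD · x)`; `κ = 1` is the
merged form and `κ = 0` the sum of five squares. `f` is an obtuse superbase with `f 0` and `f 1` orthogonal.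
-/

set_option autoImplicit false

namespace Pool.Agent.Helper1.FIVE

open Matrix
open Pool.Agent.Helper12.LW (LFree toR)
open Pool.Agent.Helper84.FL (Superbase)

/-- the form -/
def frm (κ : ℝ) (n : Fin 3 → Fin 3 → ℝ) (nC nD x y : Fin 3 → ℝ) : ℝ :=
  ∑ i, (n i ⬝ᵥ x) * (n i ⬝ᵥ y) + (nC ⬝ᵥ x) * (nC ⬝ᵥ y) + (nD ⬝ᵥ x) * (nD ⬝ᵥ y) +
    κ * ((nC ⬝ᵥ x) * (nD ⬝ᵥ y) + (nD ⬝ᵥ x) * (nC ⬝ᵥ y))

/-- the label of the plane `n i`: `1, 2, 3` -/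
def li (i : Fin 3) : Fin 5 := ⟨i.1 + 1, by omega⟩

/-- the five planes around `K`; labels `1, 2, 3` for the planes `n 0, n 1, n 2`, label `0` for `C`, label `4` for `D` -/
structure Five (K : Set (Fin 3 → ℝ)) (W : ℝ) (n : Fin 3 → Fin 3 → ℝ) (nC nD : Fin 3 → ℝ) (b : Fin 3 → ℝ) (bC bD : ℝ)
    (ρ : Fin 3 → ℝ) (lab : (Fin 3 → ℤ) → Fin 5) : Prop where
  wide : ∀ r : Fin 3 → ℤ, r ≠ 0 → ∃ x ∈ K, ∃ x' ∈ K, W < toR r ⬝ᵥ (x - x')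
  sum_n : ∑ i, n i + nC + nD = 0
  sum_b : ∑ i, b i + bC + bD = 1
  rho0 : ∀ i, 0 ≤ ρ i
  rho1 : ∀ i, ρ i ≤ 1
  hD : nD = -∑ i, ρ i • n i
  le : ∀ x ∈ K, ∀ i, n i ⬝ᵥ x ≤ b i
  leC : ∀ x ∈ K, nC ⬝ᵥ x ≤ bC
  leD : ∀ x ∈ K, nD ⬝ᵥ x ≤ bD
  lab_i : ∀ z (i : Fin 3), lab z = li i → b i ≤ n i ⬝ᵥ toR z
  lab_C : ∀ z, lab z = 0 → bC ≤ nC ⬝ᵥ toR z ∧ ∀ i, n i ⬝ᵥ toR z ≤ b i
  lab_D : ∀ z, lab z = 4 → bD ≤ nD ⬝ᵥ toR z ∧ ∀ i, n i ⬝ᵥ toR z ≤ b i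
  sep : ∀ x : Fin 3 → ℝ, (∀ i, n i ⬝ᵥ x = 0) → x = 0

/-- the six points of the octahedron: the base `0, 1, 2, 3` (in cyclic order) and the apexes `4, 5` -/
def octp (f : Fin 4 → Fin 3 → ℤ) (x : Fin 3 → ℤ) : Fin 6 → Fin 3 → ℤ :=
  ![x, x + f 0, x + f 0 + f 1, x + f 1, x - f 2, x - f 3]

/-- exactly one of the two pyramids carries the five labels -/
def OneP (l : Fin 6 → Fin 5) : Prop :=
  (Function.Injective ![l 0, l 1, l 2, l 3, l 4] ∧ ¬ Function.Injective ![l 0, l 1, l 2, l 3, l 5]) ∨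
    (¬ Function.Injective ![l 0, l 1, l 2, l 3, l 4] ∧ Function.Injective ![l 0, l 1, l 2, l 3, l 5])

instance (l : Fin 6 → Fin 5) : Decidable (OneP l) := by unfold OneP; infer_instance

/-- the wall state -/
structure OState (κ : ℝ) (K : Set (Fin 3 → ℝ)) (W : ℝ) (n : Fin 3 → Fin 3 → ℝ) (nC nD : Fin 3 → ℝ) (b : Fin 3 → ℝ)
    (bC bD : ℝ) (ρ : Fin 3 → ℝ) (lab : (Fin 3 → ℤ) → Fin 5) (f : Fin 4 → Fin 3 → ℤ) (x : Fin 3 → ℤ) : Prop where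
  five : Five K W n nC nD b bC bD ρ lab
  sb : Superbase f
  obt : ∀ l m, l ≠ m → frm κ n nC nD (toR (f l)) (toR (f m)) ≤ 0
  wall : frm κ n nC nD (toR (f 0)) (toR (f 1)) = 0
  oct : OneP fun i => lab (octp f x i)

end Pool.Agent.Helper1.FIVE
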