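import Mathlib
import Pool.Agent.Helper1.FIVE.OState
import Pool.Agent.Helper20.FIVE.Width

/-!
# The facts of the wall state in coordinates

`F` is the square matrix of the merged simplex `nC + nD, n 0, n 1, n 2` in the basis `f 0, f 1, f 2`. Lattice points
are `x + ∑ c l f l`. All facts have the form `k + ∑ ρ i k i ≤ ⟨F, C + ∑ ρ i C i⟩` (chain and label facts) or
`k + ∑ ρ i k i + S W ≤ ⟨F, C + ∑ ρ i C i⟩ + S ⟨F Z, M⟩` (width facts).
-/

set_option autoImplicit false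

namespace Pool.Agent.Helper1.FIVE

open Matrix
open Pool.Agent.Helper12.LW (LFree toR)
open Pool.Agent.Helper84.FL (Superbase)
open Pool.Agent.Helper20.FIVE

/-- the normals of the merged simplex -/
def G4 (n : Fin 3 → Fin 3 → ℝ) (nC nD : Fin 3 → ℝ) : Fin 4 → Fin 3 → ℝ := ![nC + nD, n 0, n 1, n 2]

/-- the heights of the merged simplex -/
def B4 (b : Fin 3 → ℝ) (bC bD : ℝ) : Fin 4 → ℝ := ![bC + bD, b 0, b 1, b 2]

/-- the lattice point with the coordinates `c` -/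
def latt (f : Fin 4 → Fin 3 → ℤ) (x : Fin 3 → ℤ) (c : Fin 3 → ℤ) : Fin 3 → ℤ := x + ∑ l : Fin 3, c l • f l.castSucc

/-- the coordinates of the six points -/
def oc : Fin 6 → Fin 3 → ℤ := ![![0, 0, 0], ![1, 0, 0], ![1, 1, 0], ![0, 1, 0], ![0, 0, -1], ![1, 1, 1]]

theorem toR_latt (f : Fin 4 → Fin 3 → ℤ) (x c : Fin 3 → ℤ) : toR (latt f x c) = toR x + pt f (toR c) := by
  funext i
  simp only [latt, toR, pt, Pi.add_apply, Finset.sum_apply, Pi.smul_apply, smul_eq_mul]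
  push_cast
  ring_nf

theorem octp_eq {f : Fin 4 → Fin 3 → ℤ} (hf : ∑ l, f l = 0) (x : Fin 3 → ℤ) (i : Fin 6) : octp f x i = latt f x (oc i) := by
  have h3 : f 3 = -(f 0 + f 1 + f 2) := by
    rw [Fin.sum_univ_four] at hf
    linear_combination (exp := 1) hf
  fin_cases i <;> funext j <;> simp [octp, latt, oc, Fin.sum_univ_three, h3] <;> ring

/-- pairing -/
noncomputable def pr (A B : Matrix (Fin 3) (Fin 3) ℝ) : ℝ := trace (Aᵀ * B)

theorem pr_add (A B C : Matrix (Fin 3) (Fin 3) ℝ) : pr A (B + C) = pr A B + pr A C := by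
  unfold pr
  rw [Matrix.mul_add, trace_add]

theorem pr_smul (A B : Matrix (Fin 3) (Fin 3) ℝ) (t : ℝ) : pr A (t • B) = t * pr A B := by
  unfold pr
  rw [Matrix.mul_smul, trace_smul, smul_eq_mul]

theorem pr_sum {ι : Type} (s : Finset ι) (A : Matrix (Fin 3) (Fin 3) ℝ) (B : ι → Matrix (Fin 3) (Fin 3) ℝ) :
    pr A (∑ i ∈ s, B i) = ∑ i ∈ s, pr A (B i) := by
  unfold pr
  rw [Matrix.mul_sum, trace_sum]

variable {K : Set (Fin 3 → ℝ)} {W : ℝ} {n : Fin 3 → Fin 3 → ℝ} {nC nD : Fin 3 → ℝ} {b : Fin 3 → ℝ} {bC bD : ℝ}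
  {ρ : Fin 3 → ℝ} {lab : (Fin 3 → ℤ) → Fin 5}

theorem Five.sumG (h : Five K W n nC nD b bC bD ρ lab) : ∑ j, G4 n nC nD j = 0 := by
  have h1 := h.sum_n
  rw [Fin.sum_univ_three] at h1
  rw [Fin.sum_univ_four]
  simp only [G4, Matrix.cons_val_zero, Matrix.cons_val_one, Matrix.cons_val]
  rw [← h1]
  abel

theorem Five.sumB (h : Five K W n nC nD b bC bD ρ lab) : ∑ j, B4 b bC bD j = 1 := by
  have h1 := h.sum_b
  rw [Fin.sum_univ_three] at h1
  rw [Fin.sum_univ_four]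
  simp only [B4, Matrix.cons_val_zero, Matrix.cons_val_one, Matrix.cons_val]
  linarith

theorem Five.hC (h : Five K W n nC nD b bC bD ρ lab) : nC = -∑ i, (1 - ρ i) • n i := by
  have h1 := h.sum_n
  have h2 := h.hD
  have h3 : nC = -∑ i, n i - nD := by
    rw [← sub_eq_zero]
    have : nC - (-∑ i, n i - nD) = ∑ i, n i + nC + nD := by abel
    rw [this, h1]
  rw [h3, h2]
  simp only [sub_smul, one_smul, Finset.sum_sub_distrib]
  abel

/-- the value of a facet normal on a difference of lattice points -/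
theorem val_eq (f : Fin 4 → Fin 3 → ℤ) (hG : ∑ j, G4 n nC nD j = 0) (x : Fin 3 → ℤ) (i : Fin 3) (c c' : Fin 3 → ℤ) :
    n i ⬝ᵥ toR (latt f x c) - n i ⬝ᵥ toR (latt f x c') =
      pr (FF (G4 n nC nD) f) (vecMulVec (gq i.succ) (toR (c - c'))) := by
  unfold pr
  rw [fact_c hG, Vv_pt, toR_latt, toR_latt]
  have h1 : G4 n nC nD i.succ = n i := by fin_cases i <;> rfl
  rw [h1, ← dotProduct_sub]
  congr 1
  have h2 : toR (c - c') = toR c - toR c' := by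
    funext j
    simp [toR]
  rw [h2]
  funext j
  simp only [pt, Pi.sub_apply, Pi.add_apply, Finset.sum_apply, Pi.smul_apply, smul_eq_mul, Fin.sum_univ_three]
  ring

/-- the chain matrix: `C` part -/
noncomputable def chC (z : Fin 3 → Fin 3 → ℤ) (zC : Fin 3 → ℤ) : Matrix (Fin 3) (Fin 3) ℝ :=
  ∑ i : Fin 3, vecMulVec (gq i.succ) (toR (z i - zC))

/-- **Chain facts.** -/
theorem Five.chain (h : Five K W n nC nD b bC bD ρ lab) (f : Fin 4 → Fin 3 → ℤ) (x : Fin 3 → ℤ)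
    (z : Fin 3 → Fin 3 → ℤ) (zC zD : Fin 3 → ℤ) (hz : ∀ i : Fin 3, lab (latt f x (z i)) = li i)
    (hzC : lab (latt f x zC) = 0) (hzD : lab (latt f x zD) = 4) :
    1 ≤ pr (FF (G4 n nC nD) f) (chC z zC + ∑ i, ρ i • vecMulVec (gq i.succ) (toR (zC - zD))) := by
  have h1 : ∀ i, b i ≤ n i ⬝ᵥ toR (latt f x (z i)) := fun i => h.lab_i _ i (hz i)
  have h2 := (h.lab_C _ hzC).1
  have h3 := (h.lab_D _ hzD).1
  have hC : nC ⬝ᵥ toR (latt f x zC) = -∑ i, (1 - ρ i) * (n i ⬝ᵥ toR (latt f x zC)) := by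
    conv_lhs => rw [h.hC]
    rw [neg_dotProduct, sum_dotProduct]
    simp only [smul_dotProduct, smul_eq_mul]
  have hD : nD ⬝ᵥ toR (latt f x zD) = -∑ i, ρ i * (n i ⬝ᵥ toR (latt f x zD)) := by
    conv_lhs => rw [h.hD]
    rw [neg_dotProduct, sum_dotProduct]
    simp only [smul_dotProduct, smul_eq_mul]
  rw [pr_add, chC, pr_sum, pr_sum]
  simp only [pr_smul, ← val_eq f h.sumG x]
  have h4 := h.sum_b
  rw [hC] at h2
  rw [hD] at h3
  simp only [Fin.sum_univ_three] at h2 h3 h4 ⊢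
  have e0 := h1 0
  have e1 := h1 1
  have e2 := h1 2
  linarith

/-- **Label facts** for the points with the labels `C` and `D` -/
theorem Five.label (h : Five K W n nC nD b bC bD ρ lab) (f : Fin 4 → Fin 3 → ℤ) (x : Fin 3 → ℤ)
    (i : Fin 3) (z y : Fin 3 → ℤ) (hz : lab (latt f x z) = li i)
    (hy : lab (latt f x y) = 0 ∨ lab (latt f x y) = 4) :
    0 ≤ pr (FF (G4 n nC nD) f) (vecMulVec (gq i.succ) (toR (z - y))) := by
  rw [← val_eq f h.sumG x]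
  have h1 := h.lab_i _ i hz
  have h2 : n i ⬝ᵥ toR (latt f x y) ≤ b i := by
    rcases hy with hy | hy
    · exact (h.lab_C _ hy).2 i
    · exact (h.lab_D _ hy).2 i
  linarith

/-- the depth of `D` -/
theorem Five.depthD (h : Five K W n nC nD b bC bD ρ lab) (f : Fin 4 → Fin 3 → ℤ) (x : Fin 3 → ℤ)
    (z : Fin 3 → Fin 3 → ℤ) (zD : Fin 3 → ℤ) (hz : ∀ i : Fin 3, lab (latt f x (z i)) = li i)
    (hzD : lab (latt f x zD) = 4) :
    bD + ∑ i, ρ i * b i ≤ pr (FF (G4 n nC nD) f) (∑ i, ρ i • vecMulVec (gq i.succ) (toR (z i - zD))) := by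
  have h3 := (h.lab_D _ hzD).1
  have hD : nD ⬝ᵥ toR (latt f x zD) = -∑ i, ρ i * (n i ⬝ᵥ toR (latt f x zD)) := by
    conv_lhs => rw [h.hD]
    rw [neg_dotProduct, sum_dotProduct]
    simp only [smul_dotProduct, smul_eq_mul]
  rw [pr_sum]
  simp only [pr_smul, ← val_eq f h.sumG x]
  have h1 : ∀ i, ρ i * b i ≤ ρ i * (n i ⬝ᵥ toR (latt f x (z i))) := fun i =>
    mul_le_mul_of_nonneg_left (h.lab_i _ i (hz i)) (h.rho0 i)
  rw [hD] at h3
  simp only [Fin.sum_univ_three] at h3 ⊢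
  have e0 := h1 0
  have e1 := h1 1
  have e2 := h1 2
  linarith

/-- the depth of `C` -/
theorem Five.depthC (h : Five K W n nC nD b bC bD ρ lab) (f : Fin 4 → Fin 3 → ℤ) (x : Fin 3 → ℤ)
    (z : Fin 3 → Fin 3 → ℤ) (zC : Fin 3 → ℤ) (hz : ∀ i : Fin 3, lab (latt f x (z i)) = li i)
    (hzC : lab (latt f x zC) = 0) :
    bC + ∑ i, (1 - ρ i) * b i ≤ pr (FF (G4 n nC nD) f) (∑ i, (1 - ρ i) • vecMulVec (gq i.succ) (toR (z i - zC))) := by
  have h3 := (h.lab_C _ hzC).1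
  have hC : nC ⬝ᵥ toR (latt f x zC) = -∑ i, (1 - ρ i) * (n i ⬝ᵥ toR (latt f x zC)) := by
    conv_lhs => rw [h.hC]
    rw [neg_dotProduct, sum_dotProduct]
    simp only [smul_dotProduct, smul_eq_mul]
  rw [pr_sum]
  simp only [pr_smul, ← val_eq f h.sumG x]
  have h1 : ∀ i, (1 - ρ i) * b i ≤ (1 - ρ i) * (n i ⬝ᵥ toR (latt f x (z i))) := fun i =>
    mul_le_mul_of_nonneg_left (h.lab_i _ i (hz i)) (by linarith [h.rho1 i])
  rw [hC] at h3
  simp only [Fin.sum_univ_three] at h3 ⊢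
  have e0 := h1 0
  have e1 := h1 1
  have e2 := h1 2
  linarith

/-- `ρ` on the four facets of the merged simplex -/
def r4 (ρ : Fin 3 → ℝ) : Fin 4 → ℝ := ![0, ρ 0, ρ 1, ρ 2]

/-- `1 - ρ` on the four facets of the merged simplex -/
def s4 (ρ : Fin 3 → ℝ) : Fin 4 → ℝ := ![0, 1 - ρ 0, 1 - ρ 1, 1 - ρ 2]

theorem Five.leB (h : Five K W n nC nD b bC bD ρ lab) {x : Fin 3 → ℝ} (hx : x ∈ K) (j : Fin 4) :
    G4 n nC nD j ⬝ᵥ x ≤ B4 b bC bD j := by
  have h0 := h.leC x hx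
  have h1 := h.leD x hx
  have h2 := h.le x hx
  fin_cases j
  · show (nC + nD) ⬝ᵥ x ≤ bC + bD
    rw [add_dotProduct]
    linarith
  · exact h2 0
  · exact h2 1
  · exact h2 2

theorem Five.cutD (h : Five K W n nC nD b bC bD ρ lab) {x : Fin 3 → ℝ} (hx : x ∈ K) :
    ∑ j, r4 ρ j * (B4 b bC bD j - G4 n nC nD j ⬝ᵥ x) ≤ bD + ∑ i, ρ i * b i := by
  have h1 := h.leD x hx
  have h2 : nD ⬝ᵥ x = -∑ i, ρ i * (n i ⬝ᵥ x) := by
    conv_lhs => rw [h.hD]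
    rw [neg_dotProduct, sum_dotProduct]
    simp only [smul_dotProduct, smul_eq_mul]
  rw [h2] at h1
  rw [Fin.sum_univ_four]
  rw [Fin.sum_univ_three] at h1 ⊢
  simp only [r4, B4, G4, Matrix.cons_val_zero, Matrix.cons_val_one, Matrix.cons_val]
  linarith

theorem Five.cutC (h : Five K W n nC nD b bC bD ρ lab) {x : Fin 3 → ℝ} (hx : x ∈ K) :
    ∑ j, s4 ρ j * (B4 b bC bD j - G4 n nC nD j ⬝ᵥ x) ≤ bC + ∑ i, (1 - ρ i) * b i := by
  have h1 := h.leC x hx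
  have h2 : nC ⬝ᵥ x = -∑ i, (1 - ρ i) * (n i ⬝ᵥ x) := by
    conv_lhs => rw [h.hC]
    rw [neg_dotProduct, sum_dotProduct]
    simp only [smul_dotProduct, smul_eq_mul]
  rw [h2] at h1
  rw [Fin.sum_univ_four]
  rw [Fin.sum_univ_three] at h1 ⊢
  simp only [s4, B4, G4, Matrix.cons_val_zero, Matrix.cons_val_one, Matrix.cons_val]
  linarith

/-- width of a simplex cut by two planes, in barycentric coordinates -/
theorem width_cut2 (Y c d : Fin 4 → ℝ) (H G t t' u u' W : ℝ) (ht : 0 ≤ t) (ht' : 0 ≤ t') (hu : 0 ≤ u) (hu' : 0 ≤ u')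
    (x y : Fin 4 → ℝ)
    (hx : ∀ j, 0 ≤ x j) (hxs : ∑ j, x j = 1) (hxc : ∑ j, c j * x j ≤ H) (hxd : ∑ j, d j * x j ≤ G)
    (hy : ∀ j, 0 ≤ y j) (hys : ∑ j, y j = 1) (hyc : ∑ j, c j * y j ≤ H) (hyd : ∑ j, d j * y j ≤ G)
    (h : W ≤ ∑ j, Y j * x j - ∑ j, Y j * y j) :
    ∃ i j, W + (t * c i + u * d i) + (t' * c j + u' * d j) ≤ Y i - Y j + ((t + t') * H + (u + u') * G) := by
  obtain ⟨i, hi⟩ := exists_ge_avg (fun j => Y j - (t * c j + u * d j)) x hx hxs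
  obtain ⟨j, hj⟩ := exists_le_avg (fun j => Y j + (t' * c j + u' * d j)) y hy hys
  refine ⟨i, j, ?_⟩
  have e1 : ∑ j, (Y j - (t * c j + u * d j)) * x j =
      ∑ j, Y j * x j - (t * ∑ j, c j * x j + u * ∑ j, d j * x j) := by
    rw [Finset.mul_sum, Finset.mul_sum, ← Finset.sum_add_distrib, ← Finset.sum_sub_distrib]
    exact Finset.sum_congr rfl fun j _ => by ring
  have e2 : ∑ j, (Y j + (t' * c j + u' * d j)) * y j =
      ∑ j, Y j * y j + (t' * ∑ j, c j * y j + u' * ∑ j, d j * y j) := by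
    rw [Finset.mul_sum, Finset.mul_sum, ← Finset.sum_add_distrib, ← Finset.sum_add_distrib]
    exact Finset.sum_congr rfl fun j _ => by ring
  have hi2 : ∑ j, Y j * x j - (t * ∑ j, c j * x j + u * ∑ j, d j * x j) ≤ Y i - (t * c i + u * d i) := e1 ▸ hi
  have hj2 : Y j + (t' * c j + u' * d j) ≤ ∑ j, Y j * y j + (t' * ∑ j, c j * y j + u' * ∑ j, d j * y j) := e2 ▸ hj
  have h1 := mul_le_mul_of_nonneg_left hxc ht
  have h2 := mul_le_mul_of_nonneg_left hyc ht'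
  have h3 := mul_le_mul_of_nonneg_left hxd hu
  have h4 := mul_le_mul_of_nonneg_left hyd hu'
  linarith

/-- **Width facts** of the merged form, scaled by `S > 0`. -/
theorem Five.width (h : Five K W n nC nD b bC bD ρ lab) {f : Fin 4 → Fin 3 → ℤ}
    (hpt : ∀ x : Fin 3 → ℝ, ∃ y : Fin 3 → ℝ, pt f y = x)
    {Z : Matrix (Fin 3) (Fin 3) ℝ} (hZ : ((FF (G4 n nC nD) f)ᵀ * FF (G4 n nC nD) f) * Z = 1) (x : Fin 3 → ℤ)
    (z : Fin 3 → Fin 3 → ℤ) (zC zD : Fin 3 → ℤ) (hz : ∀ i : Fin 3, lab (latt f x (z i)) = li i)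
    (hzC : lab (latt f x zC) = 0) (hzD : lab (latt f x zD) = 4) (r : Fin 3 → ℤ) (hr : r ≠ 0)
    {S T T' U U' : ℝ} (hS : 0 < S) (hT : 0 ≤ T) (hT' : 0 ≤ T') (hU : 0 ≤ U) (hU' : 0 ≤ U') :
    ∃ i j : Fin 4, 4 * (S * W) + 4 * ((T * r4 ρ i + U * s4 ρ i) + (T' * r4 ρ j + U' * s4 ρ j)) ≤
      S * pr (FF (G4 n nC nD) f * Z) (vecMulVec (gq j - gq i) (fun l => toR r ⬝ᵥ toR (f l.castSucc))) +
        4 * ((T + T') * pr (FF (G4 n nC nD) f) (∑ i, ρ i • vecMulVec (gq i.succ) (toR (z i - zD))) +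
          (U + U') * pr (FF (G4 n nC nD) f) (∑ i, (1 - ρ i) • vecMulVec (gq i.succ) (toR (z i - zC)))) := by
  obtain ⟨x, hx, x', hx', hlt⟩ := h.wide r hr
  obtain ⟨Y, hY⟩ : ∃ Y : Fin 4 → ℝ, Y = fun j =>
      -trace ((FF (G4 n nC nD) f * Z)ᵀ * vecMulVec (gq j) (fun l => toR r ⬝ᵥ toR (f l.castSucc))) / 4 := ⟨_, rfl⟩
  have hsum : ∀ y : Fin 3 → ℝ, ∑ j, (B4 b bC bD j - G4 n nC nD j ⬝ᵥ y) = 1 := fun y => by
    rw [Finset.sum_sub_distrib, ← sum_dotProduct, h.sumG, zero_dotProduct, sub_zero, h.sumB]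
  obtain ⟨y, hy⟩ := hpt (x - x')
  have h1 := fact_w h.sumG f Z hZ (toR r) y
  rw [hy] at h1
  have h2 : toR r ⬝ᵥ (x - x') = ∑ j, Y j * (B4 b bC bD j - G4 n nC nD j ⬝ᵥ x) -
      ∑ j, Y j * (B4 b bC bD j - G4 n nC nD j ⬝ᵥ x') := by
    have h3 : ∑ j, Y j * (B4 b bC bD j - G4 n nC nD j ⬝ᵥ x) - ∑ j, Y j * (B4 b bC bD j - G4 n nC nD j ⬝ᵥ x') =
        (∑ j, (G4 n nC nD j ⬝ᵥ (x - x')) *
          trace ((FF (G4 n nC nD) f * Z)ᵀ * vecMulVec (gq j) (fun l => toR r ⬝ᵥ toR (f l.castSucc)))) / 4 := by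
      rw [← Finset.sum_sub_distrib, Finset.sum_div]
      refine Finset.sum_congr rfl fun j _ => ?_
      rw [hY, dotProduct_sub]
      simp only
      ring
    rw [h3, ← h1]
    ring
  obtain ⟨i, j, hij⟩ := width_cut2 Y (r4 ρ) (s4 ρ) (bD + ∑ i, ρ i * b i) (bC + ∑ i, (1 - ρ i) * b i)
    (T / S) (T' / S) (U / S) (U' / S) W (by positivity) (by positivity) (by positivity) (by positivity)
    (fun j => B4 b bC bD j - G4 n nC nD j ⬝ᵥ x) (fun j => B4 b bC bD j - G4 n nC nD j ⬝ᵥ x')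
    (fun j => sub_nonneg.2 (h.leB hx j)) (hsum x) (h.cutD hx) (h.cutC hx)
    (fun j => sub_nonneg.2 (h.leB hx' j)) (hsum x') (h.cutD hx') (h.cutC hx') (by rw [← h2]; exact hlt.le)
  refine ⟨i, j, ?_⟩
  have h5 : pr (FF (G4 n nC nD) f * Z) (vecMulVec (gq j - gq i) (fun l => toR r ⬝ᵥ toR (f l.castSucc))) =
      4 * (Y i - Y j) := by
    unfold pr
    rw [hY, Matrix.sub_vecMulVec, Matrix.mul_sub, Matrix.trace_sub]
    ring
  rw [h5]
  have h6 := mul_le_mul_of_nonneg_left hij hS.le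
  have e1 : S * (W + (T / S * r4 ρ i + U / S * s4 ρ i) + (T' / S * r4 ρ j + U' / S * s4 ρ j)) =
      S * W + ((T * r4 ρ i + U * s4 ρ i) + (T' * r4 ρ j + U' * s4 ρ j)) := by
    field_simp
    ring
  have e2 : S * (Y i - Y j + ((T / S + T' / S) * (bD + ∑ i, ρ i * b i) + (U / S + U' / S) * (bC + ∑ i, (1 - ρ i) * b i))) =
      S * (Y i - Y j) + ((T + T') * (bD + ∑ i, ρ i * b i) + (U + U') * (bC + ∑ i, (1 - ρ i) * b i)) := by
    field_simp
  rw [e1, e2] at h6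
  have h7 := mul_le_mul_of_nonneg_left (h.depthD f _ z zD hz hzD) (add_nonneg hT hT')
  have h8 := mul_le_mul_of_nonneg_left (h.depthC f _ z zC hz hzC) (add_nonneg hU hU')
  linarith

end Pool.Agent.Helper1.FIVE
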