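import Mathlib
import Pool.Agent.Helper1.FIVE.OFacts

/-!
# The facts of the wall state with all five normals

`V5` is the 5 x 3 matrix of all normals (rows by label: `0 = C`, `1, 2, 3`, `4 = D`) in the basis `f 0, f 1, f 2`. The
kernel of the transposed matrix contains `RC ρ` and `RD ρ`. All facts are affine in `ρ`, with right hand sides linear in
`V5` and in `V5 * Z`, where `Z` is the inverse of the form.
-/

set_option autoImplicit false

namespace Pool.Agent.Helper1.FIVE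

open Matrix
open Pool.Agent.Helper12.LW (LFree toR)
open Pool.Agent.Helper84.FL (Superbase)
open Pool.Agent.Helper20.FIVE

/-- the five normals by label -/
def N5 (n : Fin 3 → Fin 3 → ℝ) (nC nD : Fin 3 → ℝ) : Fin 5 → Fin 3 → ℝ := ![nC, n 0, n 1, n 2, nD]

/-- the five heights by label -/
def B5 (b : Fin 3 → ℝ) (bC bD : ℝ) : Fin 5 → ℝ := ![bC, b 0, b 1, b 2, bD]

/-- the matrix of all normals -/
noncomputable def V5 (n : Fin 3 → Fin 3 → ℝ) (nC nD : Fin 3 → ℝ) (f : Fin 4 → Fin 3 → ℤ) : Matrix (Fin 5) (Fin 3) ℝ :=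
  Matrix.of fun w l => N5 n nC nD w ⬝ᵥ toR (f l.castSucc)

/-- the circuit of `C` -/
def RC (ρ : Fin 3 → ℝ) : Fin 5 → ℝ := ![1, 1 - ρ 0, 1 - ρ 1, 1 - ρ 2, 0]

/-- the circuit of `D` -/
def RD (ρ : Fin 3 → ℝ) : Fin 5 → ℝ := ![0, ρ 0, ρ 1, ρ 2, 1]

/-- the pairing of 5 x 3 matrices -/
noncomputable def pr5 (A B : Matrix (Fin 5) (Fin 3) ℝ) : ℝ := ∑ w, ∑ l, A w l * B w l

/-- the matrix with one nonzero row -/
def rowM (w : Fin 5) (c : Fin 3 → ℝ) : Matrix (Fin 5) (Fin 3) ℝ := Matrix.of fun w' l => if w' = w then c l else 0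

theorem pr5_rowM (A : Matrix (Fin 5) (Fin 3) ℝ) (w : Fin 5) (c : Fin 3 → ℝ) : pr5 A (rowM w c) = A w ⬝ᵥ c := by
  unfold pr5 rowM
  rw [Finset.sum_eq_single w]
  · simp [dotProduct]
  · intro b _ hb
    simp [hb]
  · simp

theorem pr5_add (A B C : Matrix (Fin 5) (Fin 3) ℝ) : pr5 A (B + C) = pr5 A B + pr5 A C := by
  unfold pr5
  rw [← Finset.sum_add_distrib]
  refine Finset.sum_congr rfl fun w _ => ?_
  rw [← Finset.sum_add_distrib]
  exact Finset.sum_congr rfl fun l _ => by rw [Matrix.add_apply]; ring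

theorem pr5_sub (A B C : Matrix (Fin 5) (Fin 3) ℝ) : pr5 A (B - C) = pr5 A B - pr5 A C := by
  unfold pr5
  rw [← Finset.sum_sub_distrib]
  refine Finset.sum_congr rfl fun w _ => ?_
  rw [← Finset.sum_sub_distrib]
  exact Finset.sum_congr rfl fun l _ => by rw [Matrix.sub_apply]; ring

theorem pr5_smul (A B : Matrix (Fin 5) (Fin 3) ℝ) (t : ℝ) : pr5 A (t • B) = t * pr5 A B := by
  unfold pr5
  rw [Finset.mul_sum]
  refine Finset.sum_congr rfl fun w _ => ?_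
  rw [Finset.mul_sum]
  exact Finset.sum_congr rfl fun l _ => by rw [Matrix.smul_apply, smul_eq_mul]; ring

theorem pr5_sum {ι : Type} (s : Finset ι) (A : Matrix (Fin 5) (Fin 3) ℝ) (B : ι → Matrix (Fin 5) (Fin 3) ℝ) :
    pr5 A (∑ i ∈ s, B i) = ∑ i ∈ s, pr5 A (B i) := by
  classical
  induction s using Finset.induction_on with
  | empty => simp [pr5]
  | insert a s ha ih => rw [Finset.sum_insert ha, Finset.sum_insert ha, pr5_add, ih]

variable {K : Set (Fin 3 → ℝ)} {W : ℝ} {n : Fin 3 → Fin 3 → ℝ} {nC nD : Fin 3 → ℝ} {b : Fin 3 → ℝ} {bC bD : ℝ}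
  {ρ : Fin 3 → ℝ} {lab : (Fin 3 → ℤ) → Fin 5}

/-- **The form.** -/
theorem V5_gram (n : Fin 3 → Fin 3 → ℝ) (nC nD : Fin 3 → ℝ) (f : Fin 4 → Fin 3 → ℤ) (l m : Fin 3) :
    ((V5 n nC nD f)ᵀ * V5 n nC nD f) l m = frm 0 n nC nD (toR (f l.castSucc)) (toR (f m.castSucc)) := by
  simp only [Matrix.mul_apply, Matrix.transpose_apply, V5, Matrix.of_apply, N5, frm, Fin.sum_univ_five,
    Fin.sum_univ_three, Matrix.cons_val_zero, Matrix.cons_val_one, Matrix.cons_val]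
  ring

theorem V5_row (n : Fin 3 → Fin 3 → ℝ) (nC nD : Fin 3 → ℝ) (f : Fin 4 → Fin 3 → ℤ) (w : Fin 5) (y : Fin 3 → ℝ) :
    V5 n nC nD f w ⬝ᵥ y = N5 n nC nD w ⬝ᵥ pt f y := by
  unfold pt
  rw [dotProduct_sum]
  unfold dotProduct
  refine Finset.sum_congr rfl fun l _ => ?_
  show (∑ a, N5 n nC nD w a * toR (f l.castSucc) a) * y l = ∑ a, N5 n nC nD w a * (y l * toR (f l.castSucc) a)
  rw [Finset.sum_mul]
  exact Finset.sum_congr rfl fun a _ => by ring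

theorem Five.sumN (h : Five K W n nC nD b bC bD ρ lab) : ∑ w, N5 n nC nD w = 0 := by
  have h1 := h.sum_n
  rw [Fin.sum_univ_three] at h1
  rw [Fin.sum_univ_five]
  simp only [N5, Matrix.cons_val_zero, Matrix.cons_val_one, Matrix.cons_val]
  rw [← h1]
  abel

theorem Five.sumB5 (h : Five K W n nC nD b bC bD ρ lab) : ∑ w, B5 b bC bD w = 1 := by
  have h1 := h.sum_b
  rw [Fin.sum_univ_three] at h1
  rw [Fin.sum_univ_five]
  simp only [B5, Matrix.cons_val_zero, Matrix.cons_val_one, Matrix.cons_val]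
  linarith

/-- the circuit of `C` in the normals -/
theorem Five.kerC (h : Five K W n nC nD b bC bD ρ lab) : ∑ w, RC ρ w • N5 n nC nD w = 0 := by
  have h1 := h.hC
  rw [Fin.sum_univ_three] at h1
  rw [Fin.sum_univ_five]
  simp only [N5, RC, Matrix.cons_val_zero, Matrix.cons_val_one, Matrix.cons_val, one_smul, zero_smul]
  rw [h1]
  abel

/-- the circuit of `D` in the normals -/
theorem Five.kerD (h : Five K W n nC nD b bC bD ρ lab) : ∑ w, RD ρ w • N5 n nC nD w = 0 := by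
  have h1 := h.hD
  rw [Fin.sum_univ_three] at h1
  rw [Fin.sum_univ_five]
  simp only [N5, RD, Matrix.cons_val_zero, Matrix.cons_val_one, Matrix.cons_val, one_smul, zero_smul]
  rw [h1]
  abel

theorem sum_V5 {R : Fin 5 → ℝ} (hR : ∑ w, R w • N5 n nC nD w = 0) (f : Fin 4 → Fin 3 → ℤ) (l : Fin 3) :
    ∑ w, R w * V5 n nC nD f w l = 0 := by
  have h1 := congrArg (fun v => v ⬝ᵥ toR (f l.castSucc)) hR
  simp only [sum_dotProduct, smul_dotProduct, smul_eq_mul, zero_dotProduct] at h1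
  exact h1

theorem sum_V5Z {R : Fin 5 → ℝ} (hR : ∑ w, R w • N5 n nC nD w = 0) (f : Fin 4 → Fin 3 → ℤ)
    (Z : Matrix (Fin 3) (Fin 3) ℝ) (l : Fin 3) : ∑ w, R w * (V5 n nC nD f * Z) w l = 0 := by
  simp only [Matrix.mul_apply, Finset.mul_sum]
  rw [Finset.sum_comm]
  refine Finset.sum_eq_zero fun a _ => ?_
  have h1 : ∑ w, R w * (V5 n nC nD f w a * Z a l) = (∑ w, R w * V5 n nC nD f w a) * Z a l := by
    rw [Finset.sum_mul]
    exact Finset.sum_congr rfl fun w _ => by ring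
  rw [h1, sum_V5 hR, zero_mul]

/-- the matrices of the kernel relations for `V5`: free multipliers -/
theorem Five.kerC_row (h : Five K W n nC nD b bC bD ρ lab) (f : Fin 4 → Fin 3 → ℤ) (c : Fin 3 → ℝ) :
    pr5 (V5 n nC nD f) (Matrix.of fun w l => RC ρ w * c l) = 0 := by
  unfold pr5
  rw [Finset.sum_comm]
  refine Finset.sum_eq_zero fun l _ => ?_
  have h1 : ∑ w, V5 n nC nD f w l * (RC ρ w * c l) = (∑ w, RC ρ w * V5 n nC nD f w l) * c l := by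
    rw [Finset.sum_mul]
    exact Finset.sum_congr rfl fun w _ => by ring
  show ∑ w, V5 n nC nD f w l * (RC ρ w * c l) = 0
  rw [h1, sum_V5 h.kerC, zero_mul]

theorem Five.kerD_row (h : Five K W n nC nD b bC bD ρ lab) (f : Fin 4 → Fin 3 → ℤ) (c : Fin 3 → ℝ) :
    pr5 (V5 n nC nD f) (Matrix.of fun w l => RD ρ w * c l) = 0 := by
  unfold pr5
  rw [Finset.sum_comm]
  refine Finset.sum_eq_zero fun l _ => ?_
  have h1 : ∑ w, V5 n nC nD f w l * (RD ρ w * c l) = (∑ w, RD ρ w * V5 n nC nD f w l) * c l := by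
    rw [Finset.sum_mul]
    exact Finset.sum_congr rfl fun w _ => by ring
  show ∑ w, V5 n nC nD f w l * (RD ρ w * c l) = 0
  rw [h1, sum_V5 h.kerD, zero_mul]

/-- the relations for `V5 * Z` -/
theorem Five.kerCZ_row (h : Five K W n nC nD b bC bD ρ lab) (f : Fin 4 → Fin 3 → ℤ) (Z : Matrix (Fin 3) (Fin 3) ℝ)
    (c : Fin 3 → ℝ) : pr5 (V5 n nC nD f * Z) (Matrix.of fun w l => RC ρ w * c l) = 0 := by
  unfold pr5
  rw [Finset.sum_comm]
  refine Finset.sum_eq_zero fun l _ => ?_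
  have h1 : ∑ w, (V5 n nC nD f * Z) w l * (RC ρ w * c l) = (∑ w, RC ρ w * (V5 n nC nD f * Z) w l) * c l := by
    rw [Finset.sum_mul]
    exact Finset.sum_congr rfl fun w _ => by ring
  show ∑ w, (V5 n nC nD f * Z) w l * (RC ρ w * c l) = 0
  rw [h1, sum_V5Z h.kerC, zero_mul]

theorem Five.kerDZ_row (h : Five K W n nC nD b bC bD ρ lab) (f : Fin 4 → Fin 3 → ℤ) (Z : Matrix (Fin 3) (Fin 3) ℝ)
    (c : Fin 3 → ℝ) : pr5 (V5 n nC nD f * Z) (Matrix.of fun w l => RD ρ w * c l) = 0 := by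
  unfold pr5
  rw [Finset.sum_comm]
  refine Finset.sum_eq_zero fun l _ => ?_
  have h1 : ∑ w, (V5 n nC nD f * Z) w l * (RD ρ w * c l) = (∑ w, RD ρ w * (V5 n nC nD f * Z) w l) * c l := by
    rw [Finset.sum_mul]
    exact Finset.sum_congr rfl fun w _ => by ring
  show ∑ w, (V5 n nC nD f * Z) w l * (RD ρ w * c l) = 0
  rw [h1, sum_V5Z h.kerD, zero_mul]

/-- the value of a normal on a difference of lattice points -/
theorem val5 (f : Fin 4 → Fin 3 → ℤ) (x : Fin 3 → ℤ) (w : Fin 5) (c c' : Fin 3 → ℤ) :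
    N5 n nC nD w ⬝ᵥ toR (latt f x c) - N5 n nC nD w ⬝ᵥ toR (latt f x c') =
      pr5 (V5 n nC nD f) (rowM w (toR (c - c'))) := by
  rw [pr5_rowM, V5_row, toR_latt, toR_latt, ← dotProduct_sub]
  congr 1
  have h2 : toR (c - c') = toR c - toR c' := by
    funext j
    simp [toR]
  rw [h2]
  funext j
  simp only [pt, Pi.sub_apply, Pi.add_apply, Finset.sum_apply, Pi.smul_apply, smul_eq_mul, Fin.sum_univ_three]
  ring

/-- all five planes around `K` -/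
theorem Five.le5 (h : Five K W n nC nD b bC bD ρ lab) {x : Fin 3 → ℝ} (hx : x ∈ K) (w : Fin 5) :
    N5 n nC nD w ⬝ᵥ x ≤ B5 b bC bD w := by
  have h0 := h.leC x hx
  have h1 := h.leD x hx
  have h2 := h.le x hx
  fin_cases w
  · exact h0
  · exact h2 0
  · exact h2 1
  · exact h2 2
  · exact h1

/-- the label says which plane -/
theorem Five.lab5 (h : Five K W n nC nD b bC bD ρ lab) (z : Fin 3 → ℤ) :
    B5 b bC bD (lab z) ≤ N5 n nC nD (lab z) ⬝ᵥ toR z := by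
  obtain ⟨w, hw⟩ : ∃ w, lab z = w := ⟨_, rfl⟩
  rw [hw]
  fin_cases w
  · exact (h.lab_C z hw).1
  · exact h.lab_i z 0 hw
  · exact h.lab_i z 1 hw
  · exact h.lab_i z 2 hw
  · exact (h.lab_D z hw).1

/-- the matrix with the rows `z w` -/
def zM (z : Fin 5 → Fin 3 → ℤ) : Matrix (Fin 5) (Fin 3) ℝ := Matrix.of fun w => toR (z w)

/-- the matrix with the rows `R w * z w` -/
def zMR (R : Fin 5 → ℝ) (z : Fin 5 → Fin 3 → ℤ) : Matrix (Fin 5) (Fin 3) ℝ := Matrix.of fun w l => R w * toR (z w) l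

/-- the heights are below the values of the labelled points, with nonnegative weights in the kernel -/
theorem Five.height (h : Five K W n nC nD b bC bD ρ lab) (f : Fin 4 → Fin 3 → ℤ) (x : Fin 3 → ℤ)
    (z : Fin 5 → Fin 3 → ℤ) (hz : ∀ w, lab (latt f x (z w)) = w) {R : Fin 5 → ℝ} (h0 : ∀ w, 0 ≤ R w)
    (hR : ∑ w, R w • N5 n nC nD w = 0) : ∑ w, R w * B5 b bC bD w ≤ pr5 (V5 n nC nD f) (zMR R z) := by
  have h1 : ∀ w, R w * B5 b bC bD w ≤ R w * (N5 n nC nD w ⬝ᵥ toR (latt f x (z w))) := fun w => by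
    refine mul_le_mul_of_nonneg_left ?_ (h0 w)
    have := h.lab5 (latt f x (z w))
    rwa [hz w] at this
  refine (Finset.sum_le_sum fun w _ => h1 w).trans (le_of_eq ?_)
  have h2 : ∀ w, N5 n nC nD w ⬝ᵥ toR (latt f x (z w)) = N5 n nC nD w ⬝ᵥ toR x + V5 n nC nD f w ⬝ᵥ toR (z w) := fun w => by
    rw [V5_row, toR_latt, dotProduct_add]
  simp only [h2, mul_add, Finset.sum_add_distrib]
  have h3 : ∑ w, R w * (N5 n nC nD w ⬝ᵥ toR x) = 0 := by
    have h4 := congrArg (fun v => v ⬝ᵥ toR x) hR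
    simp only [sum_dotProduct, smul_dotProduct, smul_eq_mul, zero_dotProduct] at h4
    exact h4
  rw [h3, zero_add]
  unfold pr5 zMR
  refine Finset.sum_congr rfl fun w _ => ?_
  unfold dotProduct
  rw [Finset.mul_sum]
  exact Finset.sum_congr rfl fun l _ => by simp only [Matrix.of_apply]; ring

/-- **The chain fact.** -/
theorem Five.chain5 (h : Five K W n nC nD b bC bD ρ lab) (f : Fin 4 → Fin 3 → ℤ) (x : Fin 3 → ℤ)
    (z : Fin 5 → Fin 3 → ℤ) (hz : ∀ w, lab (latt f x (z w)) = w) : 1 ≤ pr5 (V5 n nC nD f) (zM z) := by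
  have h1 := h.height f x z hz (R := fun _ => 1) (fun _ => zero_le_one) (by simpa using h.sumN)
  have h2 : zMR (fun _ => 1) z = zM z := by
    ext w l
    simp [zMR, zM]
  rw [h2] at h1
  simpa [h.sumB5] using h1

/-- **Label facts** for the points with the labels `C` and `D` -/
theorem Five.label5 (h : Five K W n nC nD b bC bD ρ lab) (f : Fin 4 → Fin 3 → ℤ) (x : Fin 3 → ℤ)
    (i : Fin 3) (z y : Fin 3 → ℤ) (hz : lab (latt f x z) = li i)
    (hy : lab (latt f x y) = 0 ∨ lab (latt f x y) = 4) :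
    0 ≤ pr5 (V5 n nC nD f) (rowM (li i) (toR (z - y))) := by
  rw [← val5 f x]
  have h0 : N5 n nC nD (li i) = n i := by fin_cases i <;> rfl
  rw [h0]
  have h1 := h.lab_i _ i hz
  have h2 : n i ⬝ᵥ toR (latt f x y) ≤ b i := by
    rcases hy with hy | hy
    · exact (h.lab_C _ hy).2 i
    · exact (h.lab_D _ hy).2 i
  linarith

/-- the height of the circuit `C` -/
noncomputable def etaC (ρ : Fin 3 → ℝ) (b : Fin 3 → ℝ) (bC bD : ℝ) : ℝ := ∑ w, RC ρ w * B5 b bC bD w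

/-- the height of the circuit `D` -/
noncomputable def etaD (ρ : Fin 3 → ℝ) (b : Fin 3 → ℝ) (bC bD : ℝ) : ℝ := ∑ w, RD ρ w * B5 b bC bD w

theorem RC_add (ρ : Fin 3 → ℝ) (w : Fin 5) : RC ρ w + RD ρ w = 1 := by
  fin_cases w <;> simp [RC, RD]

theorem Five.eta_add (h : Five K W n nC nD b bC bD ρ lab) : etaC ρ b bC bD + etaD ρ b bC bD = 1 := by
  unfold etaC etaD
  rw [← Finset.sum_add_distrib, ← h.sumB5]
  refine Finset.sum_congr rfl fun w _ => ?_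
  rw [← add_mul, RC_add, one_mul]

theorem Five.RC_nonneg (h : Five K W n nC nD b bC bD ρ lab) (w : Fin 5) : 0 ≤ RC ρ w := by
  have h0 := h.rho1
  fin_cases w
  · show (0 : ℝ) ≤ 1
    norm_num
  · exact sub_nonneg.2 (h0 0)
  · exact sub_nonneg.2 (h0 1)
  · exact sub_nonneg.2 (h0 2)
  · exact le_refl (0 : ℝ)

theorem Five.RD_nonneg (h : Five K W n nC nD b bC bD ρ lab) (w : Fin 5) : 0 ≤ RD ρ w := by
  have h0 := h.rho0
  fin_cases w
  · exact le_refl (0 : ℝ)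
  · exact h0 0
  · exact h0 1
  · exact h0 2
  · show (0 : ℝ) ≤ 1
    norm_num

theorem Five.nonneg_height (h : Five K W n nC nD b bC bD ρ lab) {R : Fin 5 → ℝ} (h0 : ∀ w, 0 ≤ R w)
    (hR : ∑ w, R w • N5 n nC nD w = 0) : 0 ≤ ∑ w, R w * B5 b bC bD w := by
  obtain ⟨x, hx, -, -, -⟩ := h.wide (fun _ => 1) (fun h => by simpa using congrFun h 0)
  have h1 : ∀ w, R w * (N5 n nC nD w ⬝ᵥ x) ≤ R w * B5 b bC bD w := fun w =>
    mul_le_mul_of_nonneg_left (h.le5 hx w) (h0 w)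
  refine le_trans (le_of_eq ?_) (Finset.sum_le_sum fun w _ => h1 w)
  have h4 := congrArg (fun v => v ⬝ᵥ x) hR
  simp only [sum_dotProduct, smul_dotProduct, smul_eq_mul, zero_dotProduct] at h4
  exact h4.symm

theorem Five.etaC_nonneg (h : Five K W n nC nD b bC bD ρ lab) : 0 ≤ etaC ρ b bC bD :=
  h.nonneg_height h.RC_nonneg h.kerC

theorem Five.etaD_nonneg (h : Five K W n nC nD b bC bD ρ lab) : 0 ≤ etaD ρ b bC bD :=
  h.nonneg_height h.RD_nonneg h.kerD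

theorem Five.etaC_le (h : Five K W n nC nD b bC bD ρ lab) (f : Fin 4 → Fin 3 → ℤ) (x : Fin 3 → ℤ)
    (z : Fin 5 → Fin 3 → ℤ) (hz : ∀ w, lab (latt f x (z w)) = w) :
    etaC ρ b bC bD ≤ pr5 (V5 n nC nD f) (zMR (RC ρ) z) := h.height f x z hz h.RC_nonneg h.kerC

theorem Five.etaD_le (h : Five K W n nC nD b bC bD ρ lab) (f : Fin 4 → Fin 3 → ℤ) (x : Fin 3 → ℤ)
    (z : Fin 5 → Fin 3 → ℤ) (hz : ∀ w, lab (latt f x (z w)) = w) :
    etaD ρ b bC bD ≤ pr5 (V5 n nC nD f) (zMR (RD ρ) z) := h.height f x z hz h.RD_nonneg h.kerD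

/-- the coordinates of a dual vector -/
noncomputable def uu (f : Fin 4 → Fin 3 → ℤ) (r : Fin 3 → ℤ) : Fin 3 → ℝ := fun l => toR r ⬝ᵥ toR (f l.castSucc)

/-- the dual vector in the normals -/
theorem dual5 (n : Fin 3 → Fin 3 → ℝ) (nC nD : Fin 3 → ℝ) {f : Fin 4 → Fin 3 → ℤ} {Z : Matrix (Fin 3) (Fin 3) ℝ}
    (hZ : ((V5 n nC nD f)ᵀ * V5 n nC nD f) * Z = 1) (r : Fin 3 → ℤ) (y : Fin 3 → ℝ) :
    ∑ w, ((V5 n nC nD f * Z) w ⬝ᵥ uu f r) * (N5 n nC nD w ⬝ᵥ pt f y) = toR r ⬝ᵥ pt f y := by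
  have h1 : ∀ w, N5 n nC nD w ⬝ᵥ pt f y = (V5 n nC nD f *ᵥ y) w := fun w => (V5_row n nC nD f w y).symm
  have h2 : ∀ w, (V5 n nC nD f * Z) w ⬝ᵥ uu f r = ((V5 n nC nD f * Z) *ᵥ uu f r) w := fun w => rfl
  simp only [h1, h2]
  have h3 : ∑ w, ((V5 n nC nD f * Z) *ᵥ uu f r) w * (V5 n nC nD f *ᵥ y) w =
      ((V5 n nC nD f * Z) *ᵥ uu f r) ⬝ᵥ (V5 n nC nD f *ᵥ y) := rfl
  have h4 : (V5 n nC nD f)ᵀ *ᵥ ((V5 n nC nD f * Z) *ᵥ uu f r) = uu f r := by
    rw [Matrix.mulVec_mulVec, ← Matrix.mul_assoc, hZ, Matrix.one_mulVec]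
  rw [h3, dotProduct_mulVec, ← mulVec_transpose, h4]
  unfold pt
  rw [dotProduct_sum]
  simp only [dotProduct_smul, smul_eq_mul]
  unfold uu
  exact Finset.sum_congr rfl fun l _ => mul_comm _ _

/-- **The width with two multipliers in the kernel, and the ordering rows.** -/
theorem Five.width5 (h : Five K W n nC nD b bC bD ρ lab) {f : Fin 4 → Fin 3 → ℤ}
    (hpt : ∀ x : Fin 3 → ℝ, ∃ y : Fin 3 → ℝ, pt f y = x)
    {Z : Matrix (Fin 3) (Fin 3) ℝ} (hZ : ((V5 n nC nD f)ᵀ * V5 n nC nD f) * Z = 1) (r : Fin 3 → ℤ) (hr : r ≠ 0)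
    (s s' : ℝ) :
    ∃ i j : Fin 5, W ≤ ((V5 n nC nD f * Z) i ⬝ᵥ uu f r + s' * RC ρ i) - ((V5 n nC nD f * Z) j ⬝ᵥ uu f r + s * RC ρ j) +
        (s - s') * etaC ρ b bC bD ∧
      (∀ k, (V5 n nC nD f * Z) k ⬝ᵥ uu f r + s' * RC ρ k ≤ (V5 n nC nD f * Z) i ⬝ᵥ uu f r + s' * RC ρ i) ∧
      (∀ k, (V5 n nC nD f * Z) j ⬝ᵥ uu f r + s * RC ρ j ≤ (V5 n nC nD f * Z) k ⬝ᵥ uu f r + s * RC ρ k) := by
  obtain ⟨x, hx, x', hx', hlt⟩ := h.wide r hr
  obtain ⟨Y, hY⟩ : ∃ Y : Fin 5 → ℝ, Y = fun w => (V5 n nC nD f * Z) w ⬝ᵥ uu f r := ⟨_, rfl⟩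
  have hYw : ∀ w, (V5 n nC nD f * Z) w ⬝ᵥ uu f r = Y w := fun w => (congrFun hY w).symm
  simp only [hYw]
  obtain ⟨i, hi⟩ := Finite.exists_max fun w => Y w + s' * RC ρ w
  obtain ⟨j, hj⟩ := Finite.exists_min fun w => Y w + s * RC ρ w
  refine ⟨i, j, ?_, hi, hj⟩
  have hker : ∀ p : Fin 3 → ℝ, ∑ w, RC ρ w * (N5 n nC nD w ⬝ᵥ p) = 0 := fun p => by
    have h4 := congrArg (fun v => v ⬝ᵥ p) h.kerC
    simp only [sum_dotProduct, smul_dotProduct, smul_eq_mul, zero_dotProduct] at h4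
    exact h4
  have hone : ∀ p : Fin 3 → ℝ, ∑ w, N5 n nC nD w ⬝ᵥ p = 0 := fun p => by
    rw [← sum_dotProduct, h.sumN, zero_dotProduct]
  have hval : ∀ p : Fin 3 → ℝ, toR r ⬝ᵥ p = ∑ w, Y w * (N5 n nC nD w ⬝ᵥ p) := fun p => by
    obtain ⟨y, hy⟩ := hpt p
    rw [← hy, ← dual5 n nC nD hZ r y]
    exact Finset.sum_congr rfl fun w _ => by rw [hYw]
  -- the upper bound at x
  have hup : toR r ⬝ᵥ x ≤ ∑ w, (Y w + s * RC ρ w - (Y j + s * RC ρ j)) * B5 b bC bD w := by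
    have e1 : toR r ⬝ᵥ x = ∑ w, (Y w + s * RC ρ w - (Y j + s * RC ρ j)) * (N5 n nC nD w ⬝ᵥ x) := by
      have e2 : ∑ w, (Y w + s * RC ρ w - (Y j + s * RC ρ j)) * (N5 n nC nD w ⬝ᵥ x) =
          ∑ w, Y w * (N5 n nC nD w ⬝ᵥ x) + s * ∑ w, RC ρ w * (N5 n nC nD w ⬝ᵥ x) -
            (Y j + s * RC ρ j) * ∑ w, N5 n nC nD w ⬝ᵥ x := by
        rw [Finset.mul_sum, Finset.mul_sum, ← Finset.sum_add_distrib, ← Finset.sum_sub_distrib]
        exact Finset.sum_congr rfl fun w _ => by ring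
      rw [e2, hker, hone, hval]
      ring
    rw [e1]
    exact Finset.sum_le_sum fun w _ => mul_le_mul_of_nonneg_left (h.le5 hx w) (sub_nonneg.2 (hj w))
  -- the lower bound at x'
  have hlo : -(toR r ⬝ᵥ x') ≤ ∑ w, ((Y i + s' * RC ρ i) - (Y w + s' * RC ρ w)) * B5 b bC bD w := by
    have e1 : -(toR r ⬝ᵥ x') = ∑ w, ((Y i + s' * RC ρ i) - (Y w + s' * RC ρ w)) * (N5 n nC nD w ⬝ᵥ x') := by
      have e2 : ∑ w, ((Y i + s' * RC ρ i) - (Y w + s' * RC ρ w)) * (N5 n nC nD w ⬝ᵥ x') =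
          (Y i + s' * RC ρ i) * (∑ w, N5 n nC nD w ⬝ᵥ x') -
            (∑ w, Y w * (N5 n nC nD w ⬝ᵥ x') + s' * ∑ w, RC ρ w * (N5 n nC nD w ⬝ᵥ x')) := by
        rw [Finset.mul_sum, Finset.mul_sum, ← Finset.sum_add_distrib, ← Finset.sum_sub_distrib]
        exact Finset.sum_congr rfl fun w _ => by ring
      rw [e2, hker, hone, hval]
      ring
    rw [e1]
    exact Finset.sum_le_sum fun w _ => mul_le_mul_of_nonneg_left (h.le5 hx' w) (sub_nonneg.2 (hi w))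
  have e1 : ∑ w, (Y w + s * RC ρ w - (Y j + s * RC ρ j)) * B5 b bC bD w =
      ∑ w, Y w * B5 b bC bD w + s * etaC ρ b bC bD - (Y j + s * RC ρ j) := by
    have e2 : ∑ w, (Y w + s * RC ρ w - (Y j + s * RC ρ j)) * B5 b bC bD w =
        ∑ w, Y w * B5 b bC bD w + s * ∑ w, RC ρ w * B5 b bC bD w - (Y j + s * RC ρ j) * ∑ w, B5 b bC bD w := by
      rw [Finset.mul_sum, Finset.mul_sum, ← Finset.sum_add_distrib, ← Finset.sum_sub_distrib]
      exact Finset.sum_congr rfl fun w _ => by ring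
    rw [e2, h.sumB5]
    unfold etaC
    ring
  have e3 : ∑ w, ((Y i + s' * RC ρ i) - (Y w + s' * RC ρ w)) * B5 b bC bD w =
      (Y i + s' * RC ρ i) - (∑ w, Y w * B5 b bC bD w + s' * etaC ρ b bC bD) := by
    have e2 : ∑ w, ((Y i + s' * RC ρ i) - (Y w + s' * RC ρ w)) * B5 b bC bD w =
        (Y i + s' * RC ρ i) * ∑ w, B5 b bC bD w -
          (∑ w, Y w * B5 b bC bD w + s' * ∑ w, RC ρ w * B5 b bC bD w) := by
      rw [Finset.mul_sum, Finset.mul_sum, ← Finset.sum_add_distrib, ← Finset.sum_sub_distrib]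
      exact Finset.sum_congr rfl fun w _ => by ring
    rw [e2, h.sumB5]
    unfold etaC
    ring
  rw [e1] at hup
  rw [e3] at hlo
  rw [dotProduct_sub] at hlt
  linarith

/-- **Width facts**, scaled by `S > 0`, in terms of `V5` and `V5 * Z` only. -/
theorem Five.widthU (h : Five K W n nC nD b bC bD ρ lab) {f : Fin 4 → Fin 3 → ℤ}
    (hpt : ∀ x : Fin 3 → ℝ, ∃ y : Fin 3 → ℝ, pt f y = x)
    {Z : Matrix (Fin 3) (Fin 3) ℝ} (hZ : ((V5 n nC nD f)ᵀ * V5 n nC nD f) * Z = 1) (x : Fin 3 → ℤ)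
    (z : Fin 5 → Fin 3 → ℤ) (hz : ∀ w, lab (latt f x (z w)) = w) (r : Fin 3 → ℤ) (hr : r ≠ 0)
    {S : ℝ} (hS : 0 < S) (T T' : ℝ) :
    ∃ i j : Fin 5,
      S * W + T * RC ρ j - T' * RC ρ i ≤ S * pr5 (V5 n nC nD f * Z) (rowM i (uu f r) - rowM j (uu f r)) +
        max (T - T') 0 * pr5 (V5 n nC nD f) (zMR (RC ρ) z) -
          max (T' - T) 0 * (1 - pr5 (V5 n nC nD f) (zMR (RD ρ) z)) ∧
      (∀ k, 0 ≤ S * pr5 (V5 n nC nD f * Z) (rowM i (uu f r) - rowM k (uu f r)) + T' * (RC ρ i - RC ρ k)) ∧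
      (∀ k, 0 ≤ S * pr5 (V5 n nC nD f * Z) (rowM k (uu f r) - rowM j (uu f r)) + T * (RC ρ k - RC ρ j)) := by
  obtain ⟨i, j, h1, h2, h3⟩ := h.width5 hpt hZ r hr (T / S) (T' / S)
  refine ⟨i, j, ?_, fun k => ?_, fun k => ?_⟩
  · rw [pr5_sub, pr5_rowM, pr5_rowM]
    have h4 := mul_le_mul_of_nonneg_left h1 hS.le
    have e1 : S * (((V5 n nC nD f * Z) i ⬝ᵥ uu f r + T' / S * RC ρ i) - ((V5 n nC nD f * Z) j ⬝ᵥ uu f r + T / S * RC ρ j) +
        (T / S - T' / S) * etaC ρ b bC bD) = S * ((V5 n nC nD f * Z) i ⬝ᵥ uu f r - (V5 n nC nD f * Z) j ⬝ᵥ uu f r) +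
        T' * RC ρ i - T * RC ρ j + (T - T') * etaC ρ b bC bD := by
      field_simp
      ring
    rw [e1] at h4
    have h5 : (T - T') * etaC ρ b bC bD ≤ max (T - T') 0 * pr5 (V5 n nC nD f) (zMR (RC ρ) z) -
        max (T' - T) 0 * (1 - pr5 (V5 n nC nD f) (zMR (RD ρ) z)) := by
      have e2 : T - T' = max (T - T') 0 - max (T' - T) 0 := by
        rcases le_total T T' with h6 | h6
        · rw [max_eq_right (by linarith), max_eq_left (by linarith)]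
          ring
        · rw [max_eq_left (by linarith), max_eq_right (by linarith)]
          ring
      have h6 := mul_le_mul_of_nonneg_left (h.etaC_le f x z hz) (le_max_right (T - T') 0)
      have h7 := mul_le_mul_of_nonneg_left (h.etaD_le f x z hz) (le_max_right (T' - T) 0)
      have h8 := h.eta_add
      have e3 : etaC ρ b bC bD = 1 - etaD ρ b bC bD := by linarith
      have e4 : (T - T') * etaC ρ b bC bD =
          max (T - T') 0 * etaC ρ b bC bD - max (T' - T) 0 * (1 - etaD ρ b bC bD) := by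
        rw [← e3]
        conv_lhs => rw [e2]
        ring
      rw [e4]
      linarith
    linarith
  · rw [pr5_sub, pr5_rowM, pr5_rowM]
    have h4 := mul_le_mul_of_nonneg_left (h2 k) hS.le
    have e1 : ∀ a c : ℝ, S * (a + T' / S * c) = S * a + T' * c := fun a c => by
      field_simp
    rw [e1, e1] at h4
    linarith
  · rw [pr5_sub, pr5_rowM, pr5_rowM]
    have h4 := mul_le_mul_of_nonneg_left (h3 k) hS.le
    have e1 : ∀ a c : ℝ, S * (a + T / S * c) = S * a + T * c := fun a c => by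
      field_simp
    rw [e1, e1] at h4
    linarith

/-- the inverse exists -/
theorem exists_Z5 (n : Fin 3 → Fin 3 → ℝ) (nC nD : Fin 3 → ℝ) (f : Fin 4 → Fin 3 → ℤ)
    (h : ∀ x : Fin 3 → ℝ, (∀ i, n i ⬝ᵥ pt f x = 0) → x = 0) :
    ∃ Z : Matrix (Fin 3) (Fin 3) ℝ, ((V5 n nC nD f)ᵀ * V5 n nC nD f) * Z = 1 ∧
      Z * ((V5 n nC nD f)ᵀ * V5 n nC nD f) = 1 := by
  have h1 : IsUnit ((V5 n nC nD f)ᵀ * V5 n nC nD f) := by
    rw [← Matrix.mulVec_injective_iff_isUnit]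
    have h2 : ∀ x : Fin 3 → ℝ, ((V5 n nC nD f)ᵀ * V5 n nC nD f) *ᵥ x = 0 → x = 0 := by
      intro x hx
      have h3 : (V5 n nC nD f *ᵥ x) ⬝ᵥ (V5 n nC nD f *ᵥ x) = 0 := by
        rw [dotProduct_mulVec, ← mulVec_transpose, Matrix.mulVec_mulVec, hx, zero_dotProduct]
      have h4 : V5 n nC nD f *ᵥ x = 0 := dotProduct_self_eq_zero.1 h3
      apply h
      intro i
      have h5 := congrFun h4 (li i)
      have h6 : (V5 n nC nD f *ᵥ x) (li i) = N5 n nC nD (li i) ⬝ᵥ pt f x := V5_row n nC nD f (li i) x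
      have h7 : N5 n nC nD (li i) = n i := by fin_cases i <;> rfl
      rw [h6, h7] at h5
      exact h5
    intro x y hxy
    have h3 : ((V5 n nC nD f)ᵀ * V5 n nC nD f) *ᵥ (x - y) = 0 := by
      rw [Matrix.mulVec_sub, sub_eq_zero]
      exact hxy
    exact sub_eq_zero.1 (h2 _ h3)
  have h2 := (Matrix.isUnit_iff_isUnit_det _).1 h1
  exact ⟨((V5 n nC nD f)ᵀ * V5 n nC nD f)⁻¹, Matrix.mul_nonsing_inv _ h2, Matrix.nonsing_inv_mul _ h2⟩

/-- the Selling parameters of the sum of five squares -/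
noncomputable def sel5 (n : Fin 3 → Fin 3 → ℝ) (nC nD : Fin 3 → ℝ) (f : Fin 4 → Fin 3 → ℤ) (l m : Fin 4) : ℝ :=
  -frm 0 n nC nD (toR (f l)) (toR (f m))

/-- **The form in Selling parameters.** -/
theorem V5_selling (n : Fin 3 → Fin 3 → ℝ) (nC nD : Fin 3 → ℝ) {f : Fin 4 → Fin 3 → ℤ} (hf : ∑ l, f l = 0) :
    (V5 n nC nD f)ᵀ * V5 n nC nD f =
      !![sel5 n nC nD f 0 1 + sel5 n nC nD f 0 2 + sel5 n nC nD f 0 3, -sel5 n nC nD f 0 1, -sel5 n nC nD f 0 2;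
        -sel5 n nC nD f 0 1, sel5 n nC nD f 0 1 + sel5 n nC nD f 1 2 + sel5 n nC nD f 1 3, -sel5 n nC nD f 1 2;
        -sel5 n nC nD f 0 2, -sel5 n nC nD f 1 2, sel5 n nC nD f 0 2 + sel5 n nC nD f 1 2 + sel5 n nC nD f 2 3] := by
  have h3 := toR_sum3 hf
  ext l m
  rw [V5_gram]
  unfold sel5 frm
  fin_cases l <;> fin_cases m <;> simp [Fin.sum_univ_three, h3] <;> ring

/-- the inverse is symmetric -/
theorem Z5_symm {n : Fin 3 → Fin 3 → ℝ} {nC nD : Fin 3 → ℝ} {f : Fin 4 → Fin 3 → ℤ} {Z : Matrix (Fin 3) (Fin 3) ℝ}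
    (hZ : ((V5 n nC nD f)ᵀ * V5 n nC nD f) * Z = 1) : Zᵀ = Z := by
  have h2 : ((V5 n nC nD f)ᵀ * V5 n nC nD f)ᵀ = (V5 n nC nD f)ᵀ * V5 n nC nD f := by
    rw [Matrix.transpose_mul, Matrix.transpose_transpose]
  have h3 : Zᵀ * ((V5 n nC nD f)ᵀ * V5 n nC nD f) = 1 := by
    have := congrArg Matrix.transpose hZ
    rw [Matrix.transpose_mul, h2, Matrix.transpose_one] at this
    exact this
  calc Zᵀ = Zᵀ * (((V5 n nC nD f)ᵀ * V5 n nC nD f) * Z) := by rw [hZ, Matrix.mul_one]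
    _ = (Zᵀ * ((V5 n nC nD f)ᵀ * V5 n nC nD f)) * Z := (Matrix.mul_assoc _ _ _).symm
    _ = Z := by rw [h3, Matrix.one_mul]

end Pool.Agent.Helper1.FIVE
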