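import Mathlib
import Pool.Agent.Helper1.FIVE.UFacts

/-!
# The budget facts of the wall state

`h` is the height of the circuit `D` (so `1 - h` is the height of the circuit `C`); `mu i` are the ratios. The
budget says that `D` cuts at most `17/50` (sum over the vertices) off the simplex of `C`, that `C` is the circuit with
the larger asymmetry, and that `D` is not redundant.
-/

set_option autoImplicit false

namespace Pool.Agent.Helper1.FIVE

open Matrix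
open Pool.Agent.Helper12.LW (LFree toR)
open Pool.Agent.Helper84.FL (Superbase)
open Pool.Agent.Helper20.FIVE

/-- the budget -/
structure Budget (nC : Fin 3 → ℝ) (b : Fin 3 → ℝ) (bC bD : ℝ) (ρ : Fin 3 → ℝ) (lab : (Fin 3 → ℤ) → Fin 5)
    (h : ℝ) (mu : Fin 3 → ℝ) : Prop where
  h0 : 0 ≤ h
  h1 : h ≤ 1
  eta : bD + ∑ i, ρ i * b i = h
  mu0 : ∀ i, 0 < mu i
  rel : ∀ i, ρ i * ((1 - h) + h * mu i) = h * mu i
  cut : ∑ i, max 0 (1 - 1 / mu i) ≤ 17 / 50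
  ord : ∑ i, max 0 (1 - 1 / mu i) ≤ ∑ i, max 0 (1 - mu i)
  act : ∃ i, 1 < mu i
  act' : ∃ i, mu i < 1
  labCD : ∀ z, lab z = 4 → nC ⬝ᵥ toR z ≤ bC

variable {K : Set (Fin 3 → ℝ)} {W : ℝ} {n : Fin 3 → Fin 3 → ℝ} {nC nD : Fin 3 → ℝ} {b : Fin 3 → ℝ} {bC bD : ℝ}
  {ρ : Fin 3 → ℝ} {lab : (Fin 3 → ℤ) → Fin 5} {h : ℝ} {mu : Fin 3 → ℝ}

theorem Budget.etaD (B : Budget nC b bC bD ρ lab h mu) : etaD ρ b bC bD = h := by
  rw [← B.eta]
  unfold FIVE.etaD RD B5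
  rw [Fin.sum_univ_five, Fin.sum_univ_three]
  simp only [Matrix.cons_val_zero, Matrix.cons_val_one, Matrix.cons_val]
  ring

theorem Budget.etaC (F : Five K W n nC nD b bC bD ρ lab) (B : Budget nC b bC bD ρ lab h mu) :
    etaC ρ b bC bD = 1 - h := by
  have h1 := F.eta_add
  rw [B.etaD] at h1
  linarith

theorem Budget.eta' (F : Five K W n nC nD b bC bD ρ lab) (B : Budget nC b bC bD ρ lab h mu) :
    bC + ∑ i, (1 - ρ i) * b i = 1 - h := by
  have h1 := B.eta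
  have h2 := F.sum_b
  rw [Fin.sum_univ_three] at h1 h2 ⊢
  linarith

/-- the denominators are positive -/
theorem Budget.den (B : Budget nC b bC bD ρ lab h mu) (i : Fin 3) : 0 < (1 - h) + h * mu i := by
  rcases eq_or_lt_of_le B.h0 with e | e
  · rw [← e]
    norm_num
  · have h1 := mul_pos e (B.mu0 i)
    have h2 := B.h1
    linarith

/-- `(1 - h) ρ = h μ (1 - ρ)` -/
theorem Budget.rel' (B : Budget nC b bC bD ρ lab h mu) (i : Fin 3) : (1 - h) * ρ i = h * mu i * (1 - ρ i) := by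
  have := B.rel i
  linarith

theorem Budget.mu_le (B : Budget nC b bC bD ρ lab h mu) (i : Fin 3) : mu i ≤ 50 / 33 := by
  have h1 : max 0 (1 - 1 / mu i) ≤ 17 / 50 :=
    (Finset.single_le_sum (f := fun i => max 0 (1 - 1 / mu i)) (fun j _ => le_max_left _ _) (Finset.mem_univ i)).trans
      B.cut
  have h2 : 1 - 1 / mu i ≤ 17 / 50 := (le_max_right _ _).trans h1
  have h3 := B.mu0 i
  have h4 : 33 / 50 ≤ 1 / mu i := by linarith
  rw [le_div_iff₀ h3] at h4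
  linarith

/-- `ψ(ρ) ≤ h` without division -/
theorem Budget.psi (B : Budget nC b bC bD ρ lab h mu) (i : Fin 3) (h1 : ρ i ≤ 1) :
    33 / 50 * ρ i ≤ h * (1 - 17 / 50 * ρ i) := by
  have h2 := B.rel' i
  have h3 := B.mu_le i
  have h4 : h * mu i * (1 - ρ i) ≤ h * (50 / 33) * (1 - ρ i) :=
    mul_le_mul_of_nonneg_right (mul_le_mul_of_nonneg_left h3 B.h0) (by linarith)
  nlinarith

/-- **(a)** tangents of `ψ` -/
theorem Budget.tangent (B : Budget nC b bC bD ρ lab h mu) (i : Fin 3) (h1 : ρ i ≤ 1) (r : ℝ) :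
    33 / 50 * (ρ i - 17 / 50 * r ^ 2) ≤ h * (1 - 17 / 50 * r) ^ 2 := by
  have h2 := B.psi i h1
  have h0 := B.h0
  have h3 : ρ i * (33 / 50 + 17 / 50 * h) ≤ h := by linarith
  have h4 : (0 : ℝ) < 33 / 50 + 17 / 50 * h := by linarith
  have h5 : 33 / 50 * h ≤ (33 / 50 + 17 / 50 * h) * (h * (1 - 17 / 50 * r) ^ 2 + 33 / 50 * (17 / 50) * r ^ 2) := by
    nlinarith [sq_nonneg (h * (1 - 17 / 50 * r) - 33 / 50 * r)]
  have h6 : 33 / 50 * (ρ i * (33 / 50 + 17 / 50 * h)) ≤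
      (33 / 50 + 17 / 50 * h) * (h * (1 - 17 / 50 * r) ^ 2 + 33 / 50 * (17 / 50) * r ^ 2) := by linarith
  have h7 : (33 / 50 + 17 / 50 * h) * (33 / 50 * ρ i) ≤
      (33 / 50 + 17 / 50 * h) * (h * (1 - 17 / 50 * r) ^ 2 + 33 / 50 * (17 / 50) * r ^ 2) := by linarith
  have h8 := le_of_mul_le_mul_left h7 h4
  linarith

/-- the truncation as a function of the ratio -/
noncomputable def eM (M : ℝ) : ℝ := 1 - 1 / max 1 M

theorem eM_mono {M M' : ℝ} (h : M ≤ M') : eM M ≤ eM M' := by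
  unfold eM
  have h1 : (0 : ℝ) < max 1 M := lt_of_lt_of_le one_pos (le_max_left _ _)
  have h2 : 1 / max 1 M' ≤ 1 / max 1 M := one_div_le_one_div_of_le h1 (max_le_max_left 1 h)
  linarith

theorem eM_eq {M : ℝ} (h : 0 < M) : eM M = max 0 (1 - 1 / M) := by
  unfold eM
  rcases le_total M 1 with h1 | h1
  · have h2 : 1 ≤ 1 / M := by rw [le_div_iff₀ h]; linarith
    rw [max_eq_left h1, max_eq_left (by linarith)]
    norm_num
  · rw [max_eq_right h1, max_eq_right]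
    have : 1 / M ≤ 1 := by rw [div_le_iff₀ h]; linarith
    linarith

/-- the ratio at the corner `lo` for the height `x` -/
noncomputable def mM (x lo : ℝ) : ℝ := (1 - x) * lo / (x * (1 - lo))

theorem Budget.mM_le (B : Budget nC b bC bD ρ lab h mu) {x : ℝ} (hx : h ≤ x) (hx0 : 0 < x) (hx1 : x ≤ 1) {lo : ℝ}
    (i : Fin 3) (h0 : 0 ≤ lo) (h1 : lo < 1) (h2 : lo ≤ ρ i) (h3 : ρ i ≤ 1) : mM x lo ≤ mu i := by
  unfold mM
  have h4 := B.rel' i
  have h5 : 0 < x * (1 - lo) := mul_pos hx0 (by linarith)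
  rw [div_le_iff₀ h5]
  have hh := B.h0
  have hm := B.mu0 i
  rcases eq_or_lt_of_le hh with e | e
  · -- h = 0 : then ρ = 0
    rw [← e] at h4
    have h6 : ρ i = 0 := by linarith
    have h7 : lo = 0 := le_antisymm (h6 ▸ h2) h0
    rw [h7, mul_zero]
    have : 0 < mu i * (x * (1 - 0)) := mul_pos hm (by linarith)
    exact this.le
  · -- (1 - x) lo h ≤ (1 - h) ρ x (1 - lo) / (1 - ρ) ..
    have h6 : (1 - x) * lo * (h * (1 - ρ i)) ≤ mu i * (x * (1 - lo)) * (h * (1 - ρ i)) := by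
      have h7 : mu i * (x * (1 - lo)) * (h * (1 - ρ i)) = x * (1 - lo) * ((1 - h) * ρ i) := by
        rw [h4]
        ring
      rw [h7]
      have h8 : (1 - x) * h ≤ x * (1 - h) := by linarith
      have h9 : lo * (1 - ρ i) ≤ (1 - lo) * ρ i := by linarith
      have h10 := mul_le_mul h8 h9 (mul_nonneg h0 (by linarith)) (mul_nonneg hx0.le (by linarith))
      linarith
    rcases eq_or_lt_of_le h3 with e3 | e3
    · -- ρ = 1 : then h = 1
      rw [e3] at h4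
      have h7 : h = 1 := by linarith
      have h8 : x = 1 := le_antisymm hx1 (by linarith)
      rw [h8, sub_self, zero_mul]
      exact mul_nonneg hm.le (mul_nonneg zero_le_one (by linarith))
    · exact le_of_mul_le_mul_right h6 (mul_pos e (by linarith))

/-- **(b)** a lower bound for the height on a box with the low corner `lo` -/
theorem Budget.h_ge (B : Budget nC b bC bD ρ lab h mu) (h3 : ∀ i, ρ i ≤ 1) {x : ℝ} (hx0 : 0 < x) (hx1 : x ≤ 1)
    {lo : Fin 3 → ℝ} (h0 : ∀ i, 0 ≤ lo i) (h1 : ∀ i, lo i < 1) (h2 : ∀ i, lo i ≤ ρ i)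
    (ht : 17 / 50 < ∑ i, eM (mM x (lo i)) ∨ ∑ i, max 0 (1 - mM x (lo i)) < ∑ i, eM (mM x (lo i))) : x ≤ h := by
  by_contra hlt
  have hM : ∀ i, mM x (lo i) ≤ mu i := fun i => B.mM_le (not_le.1 hlt).le hx0 hx1 i (h0 i) (h1 i) (h2 i) (h3 i)
  have h4 : ∑ i, eM (mM x (lo i)) ≤ ∑ i, max 0 (1 - 1 / mu i) :=
    Finset.sum_le_sum fun i _ => (eM_mono (hM i)).trans (eM_eq (B.mu0 i)).le
  have h5 : ∑ i, max 0 (1 - mu i) ≤ ∑ i, max 0 (1 - mM x (lo i)) :=
    Finset.sum_le_sum fun i _ => max_le_max_left 0 (by linarith [hM i])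
  rcases ht with ht | ht
  · exact absurd (ht.trans_le h4) (not_lt.2 B.cut)
  · exact absurd (ht.trans_le h4) (not_lt.2 (B.ord.trans h5))

/-- **(c)** the cut is not redundant -/
theorem Budget.h_le (B : Budget nC b bC bD ρ lab h mu) {u : ℝ} (hu : ∀ i, ρ i ≤ u) : h ≤ u := by
  obtain ⟨i, hi⟩ := B.act
  refine le_trans ?_ (hu i)
  have h1 := B.rel i
  have h2 := B.den i
  have h3 : h * ((1 - h) + h * mu i) ≤ ρ i * ((1 - h) + h * mu i) := by
    rw [h1]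
    have h4 : 0 ≤ h * ((1 - h) * (mu i - 1)) := mul_nonneg B.h0 (mul_nonneg (by linarith [B.h1]) (by linarith))
    linarith
  exact le_of_mul_le_mul_right h3 h2

/-- the circuit `C` is not redundant -/
theorem Budget.h_ge' (B : Budget nC b bC bD ρ lab h mu) {l : ℝ} (hl : ∀ i, l ≤ ρ i) : l ≤ h := by
  obtain ⟨i, hi⟩ := B.act'
  refine (hl i).trans ?_
  have h1 := B.rel i
  have h2 := B.den i
  have h3 : ρ i * ((1 - h) + h * mu i) ≤ h * ((1 - h) + h * mu i) := by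
    rw [h1]
    have h4 : 0 ≤ h * ((1 - h) * (1 - mu i)) := mul_nonneg B.h0 (mul_nonneg (by linarith [B.h1]) (by linarith))
    linarith
  exact le_of_mul_le_mul_right h3 h2

/-! ### facts of the merged form -/

/-- the height is below the matrix fact -/
theorem Budget.h_le_pr (B : Budget nC b bC bD ρ lab h mu) (F : Five K W n nC nD b bC bD ρ lab)
    (f : Fin 4 → Fin 3 → ℤ) (x : Fin 3 → ℤ) (z : Fin 3 → Fin 3 → ℤ) (zD : Fin 3 → ℤ)
    (hz : ∀ i : Fin 3, lab (latt f x (z i)) = li i) (hzD : lab (latt f x zD) = 4) :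
    h ≤ pr (FF (G4 n nC nD) f) (∑ i, ρ i • vecMulVec (gq i.succ) (toR (z i - zD))) := by
  rw [← B.eta]
  exact F.depthD f x z zD hz hzD

theorem Budget.h_ge_pr (B : Budget nC b bC bD ρ lab h mu) (F : Five K W n nC nD b bC bD ρ lab)
    (f : Fin 4 → Fin 3 → ℤ) (x : Fin 3 → ℤ) (z : Fin 3 → Fin 3 → ℤ) (zC : Fin 3 → ℤ)
    (hz : ∀ i : Fin 3, lab (latt f x (z i)) = li i) (hzC : lab (latt f x zC) = 0) :
    1 - h ≤ pr (FF (G4 n nC nD) f) (∑ i, (1 - ρ i) • vecMulVec (gq i.succ) (toR (z i - zC))) := by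
  rw [← B.eta' F]
  exact F.depthC f x z zC hz hzC

/-- **(a)** in the state -/
theorem Budget.tangent_pr (B : Budget nC b bC bD ρ lab h mu) (F : Five K W n nC nD b bC bD ρ lab)
    (f : Fin 4 → Fin 3 → ℤ) (x : Fin 3 → ℤ) (z : Fin 3 → Fin 3 → ℤ) (zD : Fin 3 → ℤ)
    (hz : ∀ i : Fin 3, lab (latt f x (z i)) = li i) (hzD : lab (latt f x zD) = 4) (i : Fin 3) (r : ℝ) :
    33 / 50 * (ρ i - 17 / 50 * r ^ 2) ≤
      (1 - 17 / 50 * r) ^ 2 * pr (FF (G4 n nC nD) f) (∑ i, ρ i • vecMulVec (gq i.succ) (toR (z i - zD))) := by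
  refine (B.tangent i (F.rho1 i) r).trans ?_
  rw [mul_comm]
  exact mul_le_mul_of_nonneg_left (B.h_le_pr F f x z zD hz hzD) (sq_nonneg _)

/-- **(e)** the label of `C` against the label of `D` -/
theorem Budget.label_CD (B : Budget nC b bC bD ρ lab h mu) (F : Five K W n nC nD b bC bD ρ lab)
    (f : Fin 4 → Fin 3 → ℤ) (x : Fin 3 → ℤ) (zC y : Fin 3 → ℤ) (hzC : lab (latt f x zC) = 0)
    (hy : lab (latt f x y) = 4) :
    0 ≤ pr (FF (G4 n nC nD) f) (∑ i, (1 - ρ i) • vecMulVec (gq i.succ) (toR (y - zC))) := by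
  have h1 := (F.lab_C _ hzC).1
  have h2 := B.labCD _ hy
  have hC : ∀ w : Fin 3 → ℝ, nC ⬝ᵥ w = -∑ i, (1 - ρ i) * (n i ⬝ᵥ w) := fun w => by
    conv_lhs => rw [F.hC]
    rw [neg_dotProduct, sum_dotProduct]
    simp only [smul_dotProduct, smul_eq_mul]
  rw [hC] at h1 h2
  rw [pr_sum]
  simp only [pr_smul, ← val_eq f F.sumG x]
  simp only [Fin.sum_univ_three] at h1 h2 ⊢
  linarith

/-- width of a simplex cut by two planes, in barycentric coordinates, with the ordering rows -/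
theorem width_cut2' (Y c d : Fin 4 → ℝ) (H G t t' u u' W : ℝ) (ht : 0 ≤ t) (ht' : 0 ≤ t') (hu : 0 ≤ u) (hu' : 0 ≤ u')
    (x y : Fin 4 → ℝ)
    (hx : ∀ j, 0 ≤ x j) (hxs : ∑ j, x j = 1) (hxc : ∑ j, c j * x j ≤ H) (hxd : ∑ j, d j * x j ≤ G)
    (hy : ∀ j, 0 ≤ y j) (hys : ∑ j, y j = 1) (hyc : ∑ j, c j * y j ≤ H) (hyd : ∑ j, d j * y j ≤ G)
    (h : W ≤ ∑ j, Y j * x j - ∑ j, Y j * y j) :
    ∃ i j, W + (t * c i + u * d i) + (t' * c j + u' * d j) ≤ Y i - Y j + ((t + t') * H + (u + u') * G) ∧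
      (∀ k, Y k - (t * c k + u * d k) ≤ Y i - (t * c i + u * d i)) ∧
      (∀ k, Y j + (t' * c j + u' * d j) ≤ Y k + (t' * c k + u' * d k)) := by
  obtain ⟨i, hi⟩ := Finite.exists_max fun k => Y k - (t * c k + u * d k)
  obtain ⟨j, hj⟩ := Finite.exists_min fun k => Y k + (t' * c k + u' * d k)
  refine ⟨i, j, ?_, hi, hj⟩
  have e1 : ∑ k, (Y k - (t * c k + u * d k)) * x k =
      ∑ k, Y k * x k - (t * ∑ k, c k * x k + u * ∑ k, d k * x k) := by
    rw [Finset.mul_sum, Finset.mul_sum, ← Finset.sum_add_distrib, ← Finset.sum_sub_distrib]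
    exact Finset.sum_congr rfl fun k _ => by ring
  have e2 : ∑ k, (Y k + (t' * c k + u' * d k)) * y k =
      ∑ k, Y k * y k + (t' * ∑ k, c k * y k + u' * ∑ k, d k * y k) := by
    rw [Finset.mul_sum, Finset.mul_sum, ← Finset.sum_add_distrib, ← Finset.sum_add_distrib]
    exact Finset.sum_congr rfl fun k _ => by ring
  have hi2 : ∑ k, (Y k - (t * c k + u * d k)) * x k ≤ Y i - (t * c i + u * d i) := by
    have h1 : ∑ k, (Y k - (t * c k + u * d k)) * x k ≤ ∑ k, (Y i - (t * c i + u * d i)) * x k :=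
      Finset.sum_le_sum fun k _ => mul_le_mul_of_nonneg_right (hi k) (hx k)
    rw [← Finset.mul_sum, hxs, mul_one] at h1
    exact h1
  have hj2 : Y j + (t' * c j + u' * d j) ≤ ∑ k, (Y k + (t' * c k + u' * d k)) * y k := by
    have h1 : ∑ k, (Y j + (t' * c j + u' * d j)) * y k ≤ ∑ k, (Y k + (t' * c k + u' * d k)) * y k :=
      Finset.sum_le_sum fun k _ => mul_le_mul_of_nonneg_right (hj k) (hy k)
    rw [← Finset.mul_sum, hys, mul_one] at h1
    exact h1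
  rw [e1] at hi2
  rw [e2] at hj2
  have h1 := mul_le_mul_of_nonneg_left hxc ht
  have h2 := mul_le_mul_of_nonneg_left hyc ht'
  have h3 := mul_le_mul_of_nonneg_left hxd hu
  have h4 := mul_le_mul_of_nonneg_left hyd hu'
  linarith

/-- **The width with the exact heights, and the ordering rows.** -/
theorem Five.widthH (h : Five K W n nC nD b bC bD ρ lab) {f : Fin 4 → Fin 3 → ℤ}
    (hpt : ∀ x : Fin 3 → ℝ, ∃ y : Fin 3 → ℝ, pt f y = x)
    {Z : Matrix (Fin 3) (Fin 3) ℝ} (hZ : ((FF (G4 n nC nD) f)ᵀ * FF (G4 n nC nD) f) * Z = 1) (r : Fin 3 → ℤ)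
    (hr : r ≠ 0) {S T T' U U' : ℝ} (hS : 0 < S) (hT : 0 ≤ T) (hT' : 0 ≤ T') (hU : 0 ≤ U) (hU' : 0 ≤ U') :
    ∃ i j : Fin 4, 4 * (S * W) + 4 * ((T * r4 ρ i + U * s4 ρ i) + (T' * r4 ρ j + U' * s4 ρ j)) ≤
      S * pr (FF (G4 n nC nD) f * Z) (vecMulVec (gq j - gq i) (fun l => toR r ⬝ᵥ toR (f l.castSucc))) +
        4 * ((T + T') * (bD + ∑ i, ρ i * b i) + (U + U') * (bC + ∑ i, (1 - ρ i) * b i)) ∧
      (∀ k, 4 * ((T * r4 ρ i + U * s4 ρ i) - (T * r4 ρ k + U * s4 ρ k)) ≤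
        S * pr (FF (G4 n nC nD) f * Z) (vecMulVec (gq k - gq i) (fun l => toR r ⬝ᵥ toR (f l.castSucc)))) ∧
      (∀ k, 4 * ((T' * r4 ρ j + U' * s4 ρ j) - (T' * r4 ρ k + U' * s4 ρ k)) ≤
        S * pr (FF (G4 n nC nD) f * Z) (vecMulVec (gq j - gq k) (fun l => toR r ⬝ᵥ toR (f l.castSucc)))) := by
  obtain ⟨x, hx, x', hx', hlt⟩ := h.wide r hr
  obtain ⟨Y, hY⟩ : ∃ Y : Fin 4 → ℝ, Y = fun j =>
      -trace ((FF (G4 n nC nD) f * Z)ᵀ * vecMulVec (gq j) (fun l => toR r ⬝ᵥ toR (f l.castSucc))) / 4 := ⟨_, rfl⟩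
  have hsum : ∀ y : Fin 3 → ℝ, ∑ j, (B4 b bC bD j - G4 n nC nD j ⬝ᵥ y) = 1 := fun y => by
    rw [Finset.sum_sub_distrib, ← sum_dotProduct, h.sumG, zero_dotProduct, sub_zero, h.sumB]
  obtain ⟨y, hy⟩ := hpt (x - x')
  have h1 := fact_w h.sumG f Z hZ (toR r) y
  rw [hy] at h1
  have h2 : toR r ⬝ᵥ (x - x') = ∑ j, Y j * (B4 b bC bD j - G4 n nC nD j ⬝ᵥ x) -
      ∑ j, Y j * (B4 b bC bD j - G4 n nC nD j ⬝ᵥ x') := by
    have h3 : ∑ j, Y j * (B4 b bC bD j - G4 n nC nD j ⬝ᵥ x) - ∑ j, Y j * (B4 b bC bD j - G4 n nC nD j ⬝ᵥ x') =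
        (∑ j, (G4 n nC nD j ⬝ᵥ (x - x')) *
          trace ((FF (G4 n nC nD) f * Z)ᵀ * vecMulVec (gq j) (fun l => toR r ⬝ᵥ toR (f l.castSucc)))) / 4 := by
      rw [← Finset.sum_sub_distrib, Finset.sum_div]
      refine Finset.sum_congr rfl fun j _ => ?_
      rw [hY, dotProduct_sub]
      simp only
      ring
    rw [h3, ← h1]
    ring
  obtain ⟨i, j, hij, hi, hj⟩ := width_cut2' Y (r4 ρ) (s4 ρ) (bD + ∑ i, ρ i * b i) (bC + ∑ i, (1 - ρ i) * b i)
    (T / S) (T' / S) (U / S) (U' / S) W (by positivity) (by positivity) (by positivity) (by positivity)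
    (fun j => B4 b bC bD j - G4 n nC nD j ⬝ᵥ x) (fun j => B4 b bC bD j - G4 n nC nD j ⬝ᵥ x')
    (fun j => sub_nonneg.2 (h.leB hx j)) (hsum x) (h.cutD hx) (h.cutC hx)
    (fun j => sub_nonneg.2 (h.leB hx' j)) (hsum x') (h.cutD hx') (h.cutC hx') (by rw [← h2]; exact hlt.le)
  have h5 : ∀ i j, pr (FF (G4 n nC nD) f * Z) (vecMulVec (gq j - gq i) (fun l => toR r ⬝ᵥ toR (f l.castSucc))) =
      4 * (Y i - Y j) := fun i j => by
    unfold pr
    rw [hY, Matrix.sub_vecMulVec, Matrix.mul_sub, Matrix.trace_sub]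
    ring
  have e0 : ∀ y T U c d : ℝ, S * (y - (T / S * c + U / S * d)) = S * y - (T * c + U * d) := fun y T U c d => by
    field_simp
  have e0' : ∀ y T U c d : ℝ, S * (y + (T / S * c + U / S * d)) = S * y + (T * c + U * d) := fun y T U c d => by
    field_simp
  refine ⟨i, j, ?_, fun k => ?_, fun k => ?_⟩
  · rw [h5]
    have h6 := mul_le_mul_of_nonneg_left hij hS.le
    have e1 : S * (W + (T / S * r4 ρ i + U / S * s4 ρ i) + (T' / S * r4 ρ j + U' / S * s4 ρ j)) =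
        S * W + ((T * r4 ρ i + U * s4 ρ i) + (T' * r4 ρ j + U' * s4 ρ j)) := by
      field_simp
      ring
    have e2 : S * (Y i - Y j + ((T / S + T' / S) * (bD + ∑ i, ρ i * b i) +
        (U / S + U' / S) * (bC + ∑ i, (1 - ρ i) * b i))) =
        S * (Y i - Y j) + ((T + T') * (bD + ∑ i, ρ i * b i) + (U + U') * (bC + ∑ i, (1 - ρ i) * b i)) := by
      field_simp
    rw [e1, e2] at h6
    linarith
  · rw [h5]
    have h6 := mul_le_mul_of_nonneg_left (hi k) hS.le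
    rw [e0, e0] at h6
    linarith
  · rw [h5]
    have h6 := mul_le_mul_of_nonneg_left (hj k) hS.le
    rw [e0', e0'] at h6
    linarith

/-- **(d)** the width with both facts for the same child: with the matrix depths and with the numbers `hl ≤ h ≤ hu`,
and the ordering rows. -/
theorem Budget.width (B : Budget nC b bC bD ρ lab h mu) (F : Five K W n nC nD b bC bD ρ lab) {f : Fin 4 → Fin 3 → ℤ}
    (hpt : ∀ x : Fin 3 → ℝ, ∃ y : Fin 3 → ℝ, pt f y = x)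
    {Z : Matrix (Fin 3) (Fin 3) ℝ} (hZ : ((FF (G4 n nC nD) f)ᵀ * FF (G4 n nC nD) f) * Z = 1) (x : Fin 3 → ℤ)
    (z : Fin 3 → Fin 3 → ℤ) (zC zD : Fin 3 → ℤ) (hz : ∀ i : Fin 3, lab (latt f x (z i)) = li i)
    (hzC : lab (latt f x zC) = 0) (hzD : lab (latt f x zD) = 4) (r : Fin 3 → ℤ) (hr : r ≠ 0)
    {S T T' U U' : ℝ} (hS : 0 < S) (hT : 0 ≤ T) (hT' : 0 ≤ T') (hU : 0 ≤ U) (hU' : 0 ≤ U') {hl hu : ℝ} (h1 : hl ≤ h)
    (h2 : h ≤ hu) :
    ∃ i j : Fin 4, (4 * (S * W) + 4 * ((T * r4 ρ i + U * s4 ρ i) + (T' * r4 ρ j + U' * s4 ρ j)) ≤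
      S * pr (FF (G4 n nC nD) f * Z) (vecMulVec (gq j - gq i) (fun l => toR r ⬝ᵥ toR (f l.castSucc))) +
        4 * ((T + T') * pr (FF (G4 n nC nD) f) (∑ i, ρ i • vecMulVec (gq i.succ) (toR (z i - zD))) +
          (U + U') * pr (FF (G4 n nC nD) f) (∑ i, (1 - ρ i) • vecMulVec (gq i.succ) (toR (z i - zC))))) ∧
      (4 * (S * W) + 4 * ((T * r4 ρ i + U * s4 ρ i) + (T' * r4 ρ j + U' * s4 ρ j)) ≤
      S * pr (FF (G4 n nC nD) f * Z) (vecMulVec (gq j - gq i) (fun l => toR r ⬝ᵥ toR (f l.castSucc))) +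
        4 * max ((T + T') * hl + (U + U') * (1 - hl)) ((T + T') * hu + (U + U') * (1 - hu))) ∧
      (U + U' ≤ T + T' → 4 * (S * W) + 4 * ((T * r4 ρ i + U * s4 ρ i) + (T' * r4 ρ j + U' * s4 ρ j)) ≤
      S * pr (FF (G4 n nC nD) f * Z) (vecMulVec (gq j - gq i) (fun l => toR r ⬝ᵥ toR (f l.castSucc))) +
        4 * ((U + U') + ((T + T') - (U + U')) *
          pr (FF (G4 n nC nD) f) (∑ i, ρ i • vecMulVec (gq i.succ) (toR (z i - zD))))) ∧
      (T + T' ≤ U + U' → 4 * (S * W) + 4 * ((T * r4 ρ i + U * s4 ρ i) + (T' * r4 ρ j + U' * s4 ρ j)) ≤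
      S * pr (FF (G4 n nC nD) f * Z) (vecMulVec (gq j - gq i) (fun l => toR r ⬝ᵥ toR (f l.castSucc))) +
        4 * ((T + T') + ((U + U') - (T + T')) *
          pr (FF (G4 n nC nD) f) (∑ i, (1 - ρ i) • vecMulVec (gq i.succ) (toR (z i - zC))))) ∧
      (∀ k, 4 * ((T * r4 ρ i + U * s4 ρ i) - (T * r4 ρ k + U * s4 ρ k)) ≤
        S * pr (FF (G4 n nC nD) f * Z) (vecMulVec (gq k - gq i) (fun l => toR r ⬝ᵥ toR (f l.castSucc)))) ∧
      (∀ k, 4 * ((T' * r4 ρ j + U' * s4 ρ j) - (T' * r4 ρ k + U' * s4 ρ k)) ≤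
        S * pr (FF (G4 n nC nD) f * Z) (vecMulVec (gq j - gq k) (fun l => toR r ⬝ᵥ toR (f l.castSucc)))) := by
  obtain ⟨i, j, h3, h4, h5⟩ := F.widthH hpt hZ r hr hS hT hT' hU hU'
  have hTT : 0 ≤ T + T' := add_nonneg hT hT'
  have hUU : 0 ≤ U + U' := add_nonneg hU hU'
  refine ⟨i, j, h3.trans ?_, h3.trans ?_, fun hle => h3.trans ?_, fun hle => h3.trans ?_, h4, h5⟩
  · have h7 := mul_le_mul_of_nonneg_left (F.depthD f _ z zD hz hzD) hTT
    have h8 := mul_le_mul_of_nonneg_left (F.depthC f _ z zC hz hzC) hUU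
    linarith
  · rw [B.eta, B.eta' F]
    have h6 : (T + T') * h + (U + U') * (1 - h) ≤
        max ((T + T') * hl + (U + U') * (1 - hl)) ((T + T') * hu + (U + U') * (1 - hu)) := by
      rcases le_total (U + U') (T + T') with h7 | h7
      · refine le_trans ?_ (le_max_right _ _)
        nlinarith
      · refine le_trans ?_ (le_max_left _ _)
        nlinarith
    linarith
  · rw [B.eta, B.eta' F]
    have h6 := mul_le_mul_of_nonneg_left (B.h_le_pr F f x z zD hz hzD) (sub_nonneg.2 hle)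
    linarith
  · rw [B.eta, B.eta' F]
    have h6 := mul_le_mul_of_nonneg_left (B.h_ge_pr F f x z zC hz hzC) (sub_nonneg.2 hle)
    linarith

/-! ### the same for all five normals -/

/-- **(d)** for the (U) form -/
theorem Budget.widthU (B : Budget nC b bC bD ρ lab h mu) (F : Five K W n nC nD b bC bD ρ lab) {f : Fin 4 → Fin 3 → ℤ}
    (hpt : ∀ x : Fin 3 → ℝ, ∃ y : Fin 3 → ℝ, pt f y = x)
    {Z : Matrix (Fin 3) (Fin 3) ℝ} (hZ : ((V5 n nC nD f)ᵀ * V5 n nC nD f) * Z = 1) (r : Fin 3 → ℤ) (hr : r ≠ 0)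
    {S : ℝ} (hS : 0 < S) (T T' : ℝ) :
    ∃ i j : Fin 5,
      S * W + T * RC ρ j - T' * RC ρ i ≤ S * pr5 (V5 n nC nD f * Z) (rowM i (uu f r) - rowM j (uu f r)) +
        (T - T') * (1 - h) ∧
      (∀ k, 0 ≤ S * pr5 (V5 n nC nD f * Z) (rowM i (uu f r) - rowM k (uu f r)) + T' * (RC ρ i - RC ρ k)) ∧
      (∀ k, 0 ≤ S * pr5 (V5 n nC nD f * Z) (rowM k (uu f r) - rowM j (uu f r)) + T * (RC ρ k - RC ρ j)) := by
  obtain ⟨i, j, h1, h2, h3⟩ := F.width5 hpt hZ r hr (T / S) (T' / S)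
  have e0 : ∀ T a c : ℝ, S * (a + T / S * c) = S * a + T * c := fun T a c => by
    field_simp
  refine ⟨i, j, ?_, fun k => ?_, fun k => ?_⟩
  · rw [pr5_sub, pr5_rowM, pr5_rowM]
    have h4 := mul_le_mul_of_nonneg_left h1 hS.le
    rw [B.etaC F] at h4
    have e1 : S * (((V5 n nC nD f * Z) i ⬝ᵥ uu f r + T' / S * RC ρ i) - ((V5 n nC nD f * Z) j ⬝ᵥ uu f r + T / S * RC ρ j) +
        (T / S - T' / S) * (1 - h)) = S * ((V5 n nC nD f * Z) i ⬝ᵥ uu f r - (V5 n nC nD f * Z) j ⬝ᵥ uu f r) +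
        T' * RC ρ i - T * RC ρ j + (T - T') * (1 - h) := by
      field_simp
      ring
    rw [e1] at h4
    linarith
  · rw [pr5_sub, pr5_rowM, pr5_rowM]
    have h4 := mul_le_mul_of_nonneg_left (h2 k) hS.le
    rw [e0, e0] at h4
    linarith
  · rw [pr5_sub, pr5_rowM, pr5_rowM]
    have h4 := mul_le_mul_of_nonneg_left (h3 k) hS.le
    rw [e0, e0] at h4
    linarith

/-- **(e)** for the (U) form -/
theorem Budget.label_CD5 (B : Budget nC b bC bD ρ lab h mu) (F : Five K W n nC nD b bC bD ρ lab)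
    (f : Fin 4 → Fin 3 → ℤ) (x : Fin 3 → ℤ) (zC y : Fin 3 → ℤ) (hzC : lab (latt f x zC) = 0)
    (hy : lab (latt f x y) = 4) : 0 ≤ pr5 (V5 n nC nD f) (rowM 0 (toR (zC - y))) := by
  rw [← val5 f x]
  have h1 := (F.lab_C _ hzC).1
  have h2 := B.labCD _ hy
  have h0 : N5 n nC nD 0 = nC := rfl
  rw [h0]
  linarith

end Pool.Agent.Helper1.FIVE
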