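import Mathlib
import Pool.Agent.Helper1.FIVE.OState

/-!
# Symmetries of the wall state

Six moves: exchange of `f 0` and `f 1`, flip of the pair `f 0, f 1`, exchange of `f 2` and `f 3`, exchange of the
facets `1, 2`, of the facets `2, 3`, and of `C` and `D`. They act on the labels of the six points of the octahedron.
-/

set_option autoImplicit false

namespace Pool.Agent.Helper1.FIVE

open Matrix
open Pool.Agent.Helper12.LW (LFree toR)
open Pool.Agent.Helper84.FL (Superbase)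

/-- labels of the six points -/
def labs (lab : (Fin 3 → ℤ) → Fin 5) (f : Fin 4 → Fin 3 → ℤ) (x : Fin 3 → ℤ) : Fin 6 → Fin 5 := fun i => lab (octp f x i)

/-- a wall state with given labels of the six points -/
def HasState (κ : ℝ) (K : Set (Fin 3 → ℝ)) (W : ℝ) (l : Fin 6 → Fin 5) : Prop :=
  ∃ n nC nD b bC bD ρ lab f x, OState κ K W n nC nD b bC bD ρ lab f x ∧ labs lab f x = l

variable {κ : ℝ} {K : Set (Fin 3 → ℝ)} {W : ℝ} {n : Fin 3 → Fin 3 → ℝ} {nC nD : Fin 3 → ℝ} {b : Fin 3 → ℝ} {bC bD : ℝ}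
  {ρ : Fin 3 → ℝ} {lab : (Fin 3 → ℤ) → Fin 5} {f : Fin 4 → Fin 3 → ℤ} {x : Fin 3 → ℤ}

theorem frm_symm (κ : ℝ) (n : Fin 3 → Fin 3 → ℝ) (nC nD x y : Fin 3 → ℝ) : frm κ n nC nD x y = frm κ n nC nD y x := by
  simp only [frm, Fin.sum_univ_three]
  ring

theorem frm_add (κ : ℝ) (n : Fin 3 → Fin 3 → ℝ) (nC nD x y z : Fin 3 → ℝ) :
    frm κ n nC nD x (y + z) = frm κ n nC nD x y + frm κ n nC nD x z := by
  simp only [frm, Fin.sum_univ_three, dotProduct_add]
  ring

theorem frm_add' (κ : ℝ) (n : Fin 3 → Fin 3 → ℝ) (nC nD x y z : Fin 3 → ℝ) :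
    frm κ n nC nD (x + y) z = frm κ n nC nD x z + frm κ n nC nD y z := by
  rw [frm_symm, frm_add, frm_symm κ n nC nD z x, frm_symm κ n nC nD z y]

theorem frm_neg (κ : ℝ) (n : Fin 3 → Fin 3 → ℝ) (nC nD x y : Fin 3 → ℝ) :
    frm κ n nC nD x (-y) = -frm κ n nC nD x y := by
  simp only [frm, Fin.sum_univ_three, dotProduct_neg]
  ring

theorem frm_neg' (κ : ℝ) (n : Fin 3 → Fin 3 → ℝ) (nC nD x y : Fin 3 → ℝ) :
    frm κ n nC nD (-x) y = -frm κ n nC nD x y := by
  rw [frm_symm, frm_neg, frm_symm]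

theorem toR_add (x y : Fin 3 → ℤ) : toR (x + y) = toR x + toR y := by
  funext i
  simp [toR]

theorem toR_neg (x : Fin 3 → ℤ) : toR (-x) = -toR x := by
  funext i
  simp [toR]

/-- superbases may be permuted -/
theorem superbase_perm (h : Superbase f) (τ : Equiv.Perm (Fin 4)) : Superbase fun l => f (τ l) := by
  refine ⟨(Equiv.sum_comp τ f).trans h.sum, fun z => ?_⟩
  obtain ⟨a, ha⟩ := h.span z
  refine ⟨fun l => a (τ l), ?_⟩
  rw [ha]
  exact (Equiv.sum_comp τ fun l => a l • f l).symm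

/-- the flip -/
def flipf (f : Fin 4 → Fin 3 → ℤ) : Fin 4 → Fin 3 → ℤ := ![-f 0, f 1, f 2 + f 0, f 3 + f 0]

theorem superbase_flip (h : Superbase f) : Superbase (flipf f) := by
  have hs := h.sum
  rw [Fin.sum_univ_four] at hs
  refine ⟨?_, fun z => ?_⟩
  · rw [Fin.sum_univ_four]
    show -f 0 + f 1 + (f 2 + f 0) + (f 3 + f 0) = 0
    rw [← hs]
    abel
  · obtain ⟨a, ha⟩ := h.span z
    refine ⟨![a 2 + a 3 - a 0, a 1, a 2, a 3], ?_⟩
    rw [ha, Fin.sum_univ_four, Fin.sum_univ_four]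
    show a 0 • f 0 + a 1 • f 1 + a 2 • f 2 + a 3 • f 3 =
      (a 2 + a 3 - a 0) • (-f 0) + a 1 • f 1 + a 2 • (f 2 + f 0) + a 3 • (f 3 + f 0)
    simp only [smul_add, smul_neg, sub_smul, add_smul]
    abel

/-- moves of the labels -/
def mv : Fin 6 → (Fin 6 → Fin 5) → Fin 6 → Fin 5
  | 0, l => ![l 0, l 3, l 2, l 1, l 4, l 5]
  | 1, l => ![l 1, l 0, l 3, l 2, l 4, l 5]
  | 2, l => ![l 0, l 1, l 2, l 3, l 5, l 4]
  | 3, l => fun i => Equiv.swap 1 2 (l i)
  | 4, l => fun i => Equiv.swap 2 3 (l i)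
  | 5, l => fun i => Equiv.swap 0 4 (l i)

theorem oneP_mv (k : Fin 6) (l : Fin 6 → Fin 5) (h : OneP l) : OneP (mv k l) := by
  have inj_perm : ∀ (g : Fin 5 → Fin 5) (τ : Equiv.Perm (Fin 5)), Function.Injective g → Function.Injective (g ∘ τ) :=
    fun g τ hg => hg.comp τ.injective
  have key : ∀ (g g' : Fin 5 → Fin 5), (∃ τ : Equiv.Perm (Fin 5), g' = g ∘ τ) → (Function.Injective g ↔ Function.Injective g') := by
    rintro g g' ⟨τ, rfl⟩
    constructor
    · exact fun h => h.comp τ.injective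
    · intro h
      have := h.comp τ.symm.injective
      simpa [Function.comp_assoc] using this
  have key2 : ∀ (g : Fin 5 → Fin 5) (τ : Equiv.Perm (Fin 5)), Function.Injective (τ ∘ g) ↔ Function.Injective g :=
    fun g τ => τ.injective.of_comp_iff g
  have hfun : ∀ (τ : Equiv.Perm (Fin 5)) (a b c d e : Fin 5), ![τ a, τ b, τ c, τ d, τ e] = τ ∘ ![a, b, c, d, e] := by
    intro τ a b c d e
    funext i
    fin_cases i <;> rfl
  fin_cases k
  · have e : ∀ u, Function.Injective ![l 0, l 3, l 2, l 1, u] ↔ Function.Injective ![l 0, l 1, l 2, l 3, u] := fun u =>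
      (key _ _ ⟨Equiv.swap 1 3, by funext i; fin_cases i <;> rfl⟩)
    exact (or_congr (and_congr (e _) (not_congr (e _))) (and_congr (not_congr (e _)) (e _))).2 h
  · have e : ∀ u, Function.Injective ![l 1, l 0, l 3, l 2, u] ↔ Function.Injective ![l 0, l 1, l 2, l 3, u] := fun u =>
      (key _ _ ⟨Equiv.swap 0 1 * Equiv.swap 2 3, by funext i; fin_cases i <;> rfl⟩)
    exact (or_congr (and_congr (e _) (not_congr (e _))) (and_congr (not_congr (e _)) (e _))).2 h
  · exact h.symm.imp (fun h => ⟨h.2, h.1⟩) (fun h => ⟨h.2, h.1⟩)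
  · have e : ∀ u, Function.Injective ![Equiv.swap 1 2 (l 0), Equiv.swap 1 2 (l 1), Equiv.swap 1 2 (l 2), Equiv.swap 1 2 (l 3),
      Equiv.swap 1 2 u] ↔ Function.Injective ![l 0, l 1, l 2, l 3, u] := fun u => by rw [hfun, key2]
    exact (or_congr (and_congr (e _) (not_congr (e _))) (and_congr (not_congr (e _)) (e _))).2 h
  · have e : ∀ u, Function.Injective ![Equiv.swap 2 3 (l 0), Equiv.swap 2 3 (l 1), Equiv.swap 2 3 (l 2), Equiv.swap 2 3 (l 3),
      Equiv.swap 2 3 u] ↔ Function.Injective ![l 0, l 1, l 2, l 3, u] := fun u => by rw [hfun, key2]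
    exact (or_congr (and_congr (e _) (not_congr (e _))) (and_congr (not_congr (e _)) (e _))).2 h
  · have e : ∀ u, Function.Injective ![Equiv.swap 0 4 (l 0), Equiv.swap 0 4 (l 1), Equiv.swap 0 4 (l 2), Equiv.swap 0 4 (l 3),
      Equiv.swap 0 4 u] ↔ Function.Injective ![l 0, l 1, l 2, l 3, u] := fun u => by rw [hfun, key2]
    exact (or_congr (and_congr (e _) (not_congr (e _))) (and_congr (not_congr (e _)) (e _))).2 h

theorem Five.permI (h : Five K W n nC nD b bC bD ρ lab) (σ : Equiv.Perm (Fin 3)) (τ : Equiv.Perm (Fin 5))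
    (hτ : ∀ i, τ (li (σ i)) = li i) (h0 : τ 0 = 0) (h4 : τ 4 = 4) :
    Five K W (fun i => n (σ i)) nC nD (fun i => b (σ i)) bC bD (fun i => ρ (σ i)) (fun z => τ (lab z)) where
  wide := h.wide
  sum_n := by rw [Equiv.sum_comp σ n]; exact h.sum_n
  sum_b := by rw [Equiv.sum_comp σ b]; exact h.sum_b
  rho0 := fun i => h.rho0 _
  rho1 := fun i => h.rho1 _
  hD := by
    rw [Equiv.sum_comp σ fun i => ρ i • n i]
    exact h.hD
  le := fun x hx i => h.le x hx _
  leC := h.leC
  leD := h.leD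
  lab_i := by
    intro z i hz
    refine h.lab_i z (σ i) ?_
    rw [← hτ i] at hz
    exact τ.injective hz
  lab_C := by
    intro z hz
    have h1 : lab z = 0 := τ.injective (by rw [hz, h0])
    exact ⟨(h.lab_C z h1).1, fun i => (h.lab_C z h1).2 _⟩
  lab_D := by
    intro z hz
    have h1 : lab z = 4 := τ.injective (by rw [hz, h4])
    exact ⟨(h.lab_D z h1).1, fun i => (h.lab_D z h1).2 _⟩
  sep := fun x hx => h.sep x fun i => by simpa using hx (σ.symm i)

theorem Five.swapCD (h : Five K W n nC nD b bC bD ρ lab) :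
    Five K W n nD nC b bD bC (fun i => 1 - ρ i) (fun z => Equiv.swap 0 4 (lab z)) where
  wide := h.wide
  sum_n := by rw [← h.sum_n]; abel
  sum_b := by rw [← h.sum_b]; ring
  rho0 := fun i => by linarith [h.rho1 i]
  rho1 := fun i => by linarith [h.rho0 i]
  hD := by
    have h1 := h.sum_n
    have h3 : nC = -∑ i, n i - nD := by
      rw [← sub_eq_zero]
      have : nC - (-∑ i, n i - nD) = ∑ i, n i + nC + nD := by abel
      rw [this, h1]
    rw [h3, h.hD]
    simp only [sub_smul, one_smul, Finset.sum_sub_distrib]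
    abel
  le := h.le
  leC := h.leD
  leD := h.leC
  lab_i := by
    intro z i hz
    refine h.lab_i z i ?_
    have h1 : Equiv.swap (0 : Fin 5) 4 (li i) = li i := by clear hz; revert i; decide
    rw [← h1] at hz
    exact (Equiv.swap (0 : Fin 5) 4).injective hz
  lab_C := by
    intro z hz
    exact h.lab_D z ((Equiv.swap (0 : Fin 5) 4).injective (by rw [hz]; rfl))
  lab_D := by
    intro z hz
    exact h.lab_C z ((Equiv.swap (0 : Fin 5) 4).injective (by rw [hz]; rfl))
  sep := h.sep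

theorem frm_zero (κ : ℝ) (n : Fin 3 → Fin 3 → ℝ) (nC nD x : Fin 3 → ℝ) : frm κ n nC nD x 0 = 0 := by
  simp [frm, dotProduct]

theorem toR_zero : toR (0 : Fin 3 → ℤ) = 0 := by
  funext i
  simp [toR]

attribute [local irreducible] frm

/-- change of the superbase and the base point -/
theorem OState.change (h : OState κ K W n nC nD b bC bD ρ lab f x) (a b' c d : Fin 3 → ℤ) (x' : Fin 3 → ℤ)
    (l' : Fin 6 → Fin 5) (hsb : Superbase ![a, b', c, d])
    (hab : frm κ n nC nD (toR a) (toR b') = 0) (hac : frm κ n nC nD (toR a) (toR c) ≤ 0)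
    (had : frm κ n nC nD (toR a) (toR d) ≤ 0) (hbc : frm κ n nC nD (toR b') (toR c) ≤ 0)
    (hbd : frm κ n nC nD (toR b') (toR d) ≤ 0) (hcd : frm κ n nC nD (toR c) (toR d) ≤ 0)
    (h0 : lab x' = l' 0) (h1 : lab (x' + a) = l' 1) (h2 : lab (x' + a + b') = l' 2) (h3 : lab (x' + b') = l' 3)
    (h4 : lab (x' - c) = l' 4) (h5 : lab (x' - d) = l' 5) (hone : OneP l') :
    HasState κ K W l' := by
  have hl : (fun i => lab (octp ![a, b', c, d] x' i)) = l' := by
    funext i
    match i with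
    | 0 => exact h0
    | 1 => exact h1
    | 2 => exact h2
    | 3 => exact h3
    | 4 => exact h4
    | 5 => exact h5
  refine ⟨n, nC, nD, b, bC, bD, ρ, lab, ![a, b', c, d], x', ⟨h.five, hsb, ?_, hab, ?_⟩, hl⟩
  · intro l m hlm
    match l, m with
    | 0, 0 => exact absurd rfl hlm
    | 0, 1 => exact hab.le
    | 0, 2 => exact hac
    | 0, 3 => exact had
    | 1, 0 => rw [frm_symm]; exact hab.le
    | 1, 1 => exact absurd rfl hlm
    | 1, 2 => exact hbc
    | 1, 3 => exact hbd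
    | 2, 0 => rw [frm_symm]; exact hac
    | 2, 1 => rw [frm_symm]; exact hbc
    | 2, 2 => exact absurd rfl hlm
    | 2, 3 => exact hcd
    | 3, 0 => rw [frm_symm]; exact had
    | 3, 1 => rw [frm_symm]; exact hbd
    | 3, 2 => rw [frm_symm]; exact hcd
    | 3, 3 => exact absurd rfl hlm
  · rw [hl]
    exact hone

theorem OState.step0 (h : OState κ K W n nC nD b bC bD ρ lab f x) : HasState κ K W (mv 0 (labs lab f x)) := by
  have hsb : Superbase ![f 1, f 0, f 2, f 3] := by
    have e : ![f 1, f 0, f 2, f 3] = fun l => f (Equiv.swap 0 1 l) := by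
      funext l
      fin_cases l <;> rfl
    rw [e]
    exact superbase_perm h.sb _
  refine h.change (f 1) (f 0) (f 2) (f 3) x _ hsb ?_ (h.obt 1 2 (by decide)) (h.obt 1 3 (by decide))
    (h.obt 0 2 (by decide)) (h.obt 0 3 (by decide)) (h.obt 2 3 (by decide)) rfl rfl ?_ rfl rfl rfl (oneP_mv 0 _ h.oct)
  · rw [frm_symm]
    exact h.wall
  · rw [add_right_comm]
    rfl

theorem OState.step1 (h : OState κ K W n nC nD b bC bD ρ lab f x) : HasState κ K W (mv 1 (labs lab f x)) := by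
  have hs := h.sb.sum
  rw [Fin.sum_univ_four] at hs
  have w := h.wall
  have o02 := h.obt 0 2 (by decide)
  have o03 := h.obt 0 3 (by decide)
  have o12 := h.obt 1 2 (by decide)
  have o13 := h.obt 1 3 (by decide)
  have o23 := h.obt 2 3 (by decide)
  have z0 : frm κ n nC nD (toR (f 0)) (toR (f 0)) + frm κ n nC nD (toR (f 0)) (toR (f 1)) +
      frm κ n nC nD (toR (f 0)) (toR (f 2)) + frm κ n nC nD (toR (f 0)) (toR (f 3)) = 0 := by
    rw [← frm_add, ← frm_add, ← frm_add, ← toR_add, ← toR_add, ← toR_add, hs, toR_zero, frm_zero]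
  have s20 := frm_symm κ n nC nD (toR (f 2)) (toR (f 0))
  have s30 := frm_symm κ n nC nD (toR (f 3)) (toR (f 0))
  have s10 := frm_symm κ n nC nD (toR (f 1)) (toR (f 0))
  refine h.change (-f 0) (f 1) (f 2 + f 0) (f 3 + f 0) (x + f 0) _ (superbase_flip h.sb) ?_ ?_ ?_ ?_ ?_ ?_
    rfl ?_ ?_ rfl ?_ ?_ (oneP_mv 1 _ h.oct)
  · rw [toR_neg, frm_neg', w, neg_zero]
  · rw [toR_neg, toR_add, frm_neg', frm_add]
    linarith
  · rw [toR_neg, toR_add, frm_neg', frm_add]
    linarith
  · rw [toR_add, frm_add]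
    linarith
  · rw [toR_add, frm_add]
    linarith
  · rw [toR_add, toR_add, frm_add, frm_add', frm_add']
    linarith
  · rw [add_neg_cancel_right]
    rfl
  · rw [add_neg_cancel_right]
    rfl
  · have e : x + f 0 - (f 2 + f 0) = x - f 2 := by abel
    rw [e]
    rfl
  · have e : x + f 0 - (f 3 + f 0) = x - f 3 := by abel
    rw [e]
    rfl

theorem OState.step2 (h : OState κ K W n nC nD b bC bD ρ lab f x) : HasState κ K W (mv 2 (labs lab f x)) := by
  have hsb : Superbase ![f 0, f 1, f 3, f 2] := by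
    have e : ![f 0, f 1, f 3, f 2] = fun l => f (Equiv.swap 2 3 l) := by
      funext l
      fin_cases l <;> rfl
    rw [e]
    exact superbase_perm h.sb _
  exact h.change (f 0) (f 1) (f 3) (f 2) x _ hsb h.wall (h.obt 0 3 (by decide)) (h.obt 0 2 (by decide))
    (h.obt 1 3 (by decide)) (h.obt 1 2 (by decide)) (h.obt 3 2 (by decide)) rfl rfl rfl rfl rfl rfl (oneP_mv 2 _ h.oct)

attribute [local semireducible] frm

/-- change of the names of the facets -/
theorem OState.names (h : OState κ K W n nC nD b bC bD ρ lab f x) {n' : Fin 3 → Fin 3 → ℝ} {nC' nD' : Fin 3 → ℝ}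
    {b' : Fin 3 → ℝ} {bC' bD' : ℝ} {ρ' : Fin 3 → ℝ} (τ : Equiv.Perm (Fin 5))
    (h5 : Five K W n' nC' nD' b' bC' bD' ρ' fun z => τ (lab z)) (hfr : ∀ x y, frm κ n' nC' nD' x y = frm κ n nC nD x y)
    (hone : OneP fun i => τ (labs lab f x i)) : HasState κ K W fun i => τ (labs lab f x i) :=
  ⟨n', nC', nD', b', bC', bD', ρ', fun z => τ (lab z), f, x,
    ⟨h5, h.sb, fun l m hlm => by rw [hfr]; exact h.obt l m hlm, by rw [hfr]; exact h.wall, hone⟩, rfl⟩

theorem OState.step3 (h : OState κ K W n nC nD b bC bD ρ lab f x) : HasState κ K W (mv 3 (labs lab f x)) := by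
  refine h.names (Equiv.swap 1 2) (h.five.permI (Equiv.swap 0 1) (Equiv.swap 1 2) (by decide) (by decide) (by decide)) ?_
    (oneP_mv 3 _ h.oct)
  intro x y
  unfold frm
  rw [Equiv.sum_comp (Equiv.swap (0 : Fin 3) 1) fun i => (n i ⬝ᵥ x) * (n i ⬝ᵥ y)]

theorem OState.step4 (h : OState κ K W n nC nD b bC bD ρ lab f x) : HasState κ K W (mv 4 (labs lab f x)) := by
  refine h.names (Equiv.swap 2 3) (h.five.permI (Equiv.swap 1 2) (Equiv.swap 2 3) (by decide) (by decide) (by decide)) ?_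
    (oneP_mv 4 _ h.oct)
  intro x y
  unfold frm
  rw [Equiv.sum_comp (Equiv.swap (1 : Fin 3) 2) fun i => (n i ⬝ᵥ x) * (n i ⬝ᵥ y)]

theorem OState.step5 (h : OState κ K W n nC nD b bC bD ρ lab f x) : HasState κ K W (mv 5 (labs lab f x)) := by
  refine h.names (Equiv.swap 0 4) h.five.swapCD ?_ (oneP_mv 5 _ h.oct)
  intro x y
  unfold frm
  ring

theorem HasState.step {l : Fin 6 → Fin 5} (h : HasState κ K W l) (k : Fin 6) : HasState κ K W (mv k l) := by
  obtain ⟨n, nC, nD, b, bC, bD, ρ, lab, f, x, h, rfl⟩ := h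
  fin_cases k
  · exact h.step0
  · exact h.step1
  · exact h.step2
  · exact h.step3
  · exact h.step4
  · exact h.step5

/-- a word of moves -/
def wd : List (Fin 6) → (Fin 6 → Fin 5) → Fin 6 → Fin 5
  | [], l => l
  | k :: w, l => wd w (mv k l)

theorem HasState.word {l : Fin 6 → Fin 5} (h : HasState κ K W l) (w : List (Fin 6)) : HasState κ K W (wd w l) := by
  induction w generalizing l with
  | nil => exact h
  | cons k w ih => exact ih (h.step k)

end Pool.Agent.Helper1.FIVE
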