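import Mathlib
import Pool.Agent.Helper1.FIVE.OSym
import Pool.Agent.Helper1.FIVE.OBud

/-!
# Symmetries of the wall state with a budget

The moves which do not exchange `C` and `D` keep the budget.
-/

set_option autoImplicit false

namespace Pool.Agent.Helper1.FIVE

open Matrix
open Pool.Agent.Helper12.LW (LFree toR)
open Pool.Agent.Helper84.FL (Superbase)

/-- a wall state with fixed planes and given labels of the six points -/
def HasF (κ : ℝ) (K : Set (Fin 3 → ℝ)) (W : ℝ) (n : Fin 3 → Fin 3 → ℝ) (nC nD : Fin 3 → ℝ) (b : Fin 3 → ℝ)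
    (bC bD : ℝ) (ρ : Fin 3 → ℝ) (lab : (Fin 3 → ℤ) → Fin 5) (l : Fin 6 → Fin 5) : Prop :=
  ∃ f x, OState κ K W n nC nD b bC bD ρ lab f x ∧ labs lab f x = l

/-- a wall state with a budget and given labels of the six points -/
def HasB (κ : ℝ) (K : Set (Fin 3 → ℝ)) (W : ℝ) (l : Fin 6 → Fin 5) : Prop :=
  ∃ n nC nD b bC bD ρ lab f x h mu, OState κ K W n nC nD b bC bD ρ lab f x ∧ Budget nC b bC bD ρ lab h mu ∧
    labs lab f x = l

variable {κ : ℝ} {K : Set (Fin 3 → ℝ)} {W : ℝ} {n : Fin 3 → Fin 3 → ℝ} {nC nD : Fin 3 → ℝ} {b : Fin 3 → ℝ} {bC bD : ℝ}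
  {ρ : Fin 3 → ℝ} {lab : (Fin 3 → ℤ) → Fin 5} {f : Fin 4 → Fin 3 → ℤ} {x : Fin 3 → ℤ}

attribute [local irreducible] frm

/-- change of the superbase and the base point -/
theorem OState.changeF (h : OState κ K W n nC nD b bC bD ρ lab f x) (a b' c d : Fin 3 → ℤ) (x' : Fin 3 → ℤ)
    (l' : Fin 6 → Fin 5) (hsb : Superbase ![a, b', c, d])
    (hab : frm κ n nC nD (toR a) (toR b') = 0) (hac : frm κ n nC nD (toR a) (toR c) ≤ 0)
    (had : frm κ n nC nD (toR a) (toR d) ≤ 0) (hbc : frm κ n nC nD (toR b') (toR c) ≤ 0)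
    (hbd : frm κ n nC nD (toR b') (toR d) ≤ 0) (hcd : frm κ n nC nD (toR c) (toR d) ≤ 0)
    (h0 : lab x' = l' 0) (h1 : lab (x' + a) = l' 1) (h2 : lab (x' + a + b') = l' 2) (h3 : lab (x' + b') = l' 3)
    (h4 : lab (x' - c) = l' 4) (h5 : lab (x' - d) = l' 5) (hone : OneP l') :
    HasF κ K W n nC nD b bC bD ρ lab l' := by
  have hl : (fun i => lab (octp ![a, b', c, d] x' i)) = l' := by
    funext i
    match i with
    | 0 => exact h0
    | 1 => exact h1
    | 2 => exact h2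
    | 3 => exact h3
    | 4 => exact h4
    | 5 => exact h5
  refine ⟨![a, b', c, d], x', ⟨h.five, hsb, ?_, hab, ?_⟩, hl⟩
  · intro l m hlm
    match l, m with
    | 0, 0 => exact absurd rfl hlm
    | 0, 1 => exact hab.le
    | 0, 2 => exact hac
    | 0, 3 => exact had
    | 1, 0 => rw [frm_symm]; exact hab.le
    | 1, 1 => exact absurd rfl hlm
    | 1, 2 => exact hbc
    | 1, 3 => exact hbd
    | 2, 0 => rw [frm_symm]; exact hac
    | 2, 1 => rw [frm_symm]; exact hbc
    | 2, 2 => exact absurd rfl hlm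
    | 2, 3 => exact hcd
    | 3, 0 => rw [frm_symm]; exact had
    | 3, 1 => rw [frm_symm]; exact hbd
    | 3, 2 => rw [frm_symm]; exact hcd
    | 3, 3 => exact absurd rfl hlm
  · rw [hl]
    exact hone

theorem OState.stepF0 (h : OState κ K W n nC nD b bC bD ρ lab f x) : HasF κ K W n nC nD b bC bD ρ lab (mv 0 (labs lab f x)) := by
  have hsb : Superbase ![f 1, f 0, f 2, f 3] := by
    have e : ![f 1, f 0, f 2, f 3] = fun l => f (Equiv.swap 0 1 l) := by
      funext l
      fin_cases l <;> rfl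
    rw [e]
    exact superbase_perm h.sb _
  refine h.changeF (f 1) (f 0) (f 2) (f 3) x _ hsb ?_ (h.obt 1 2 (by decide)) (h.obt 1 3 (by decide))
    (h.obt 0 2 (by decide)) (h.obt 0 3 (by decide)) (h.obt 2 3 (by decide)) rfl rfl ?_ rfl rfl rfl (oneP_mv 0 _ h.oct)
  · rw [frm_symm]
    exact h.wall
  · rw [add_right_comm]
    rfl

theorem OState.stepF1 (h : OState κ K W n nC nD b bC bD ρ lab f x) : HasF κ K W n nC nD b bC bD ρ lab (mv 1 (labs lab f x)) := by
  have hs := h.sb.sum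
  rw [Fin.sum_univ_four] at hs
  have w := h.wall
  have o02 := h.obt 0 2 (by decide)
  have o03 := h.obt 0 3 (by decide)
  have o12 := h.obt 1 2 (by decide)
  have o13 := h.obt 1 3 (by decide)
  have o23 := h.obt 2 3 (by decide)
  have z0 : frm κ n nC nD (toR (f 0)) (toR (f 0)) + frm κ n nC nD (toR (f 0)) (toR (f 1)) +
      frm κ n nC nD (toR (f 0)) (toR (f 2)) + frm κ n nC nD (toR (f 0)) (toR (f 3)) = 0 := by
    rw [← frm_add, ← frm_add, ← frm_add, ← toR_add, ← toR_add, ← toR_add, hs, toR_zero, frm_zero]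
  have s20 := frm_symm κ n nC nD (toR (f 2)) (toR (f 0))
  have s30 := frm_symm κ n nC nD (toR (f 3)) (toR (f 0))
  have s10 := frm_symm κ n nC nD (toR (f 1)) (toR (f 0))
  refine h.changeF (-f 0) (f 1) (f 2 + f 0) (f 3 + f 0) (x + f 0) _ (superbase_flip h.sb) ?_ ?_ ?_ ?_ ?_ ?_
    rfl ?_ ?_ rfl ?_ ?_ (oneP_mv 1 _ h.oct)
  · rw [toR_neg, frm_neg', w, neg_zero]
  · rw [toR_neg, toR_add, frm_neg', frm_add]
    linarith
  · rw [toR_neg, toR_add, frm_neg', frm_add]
    linarith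
  · rw [toR_add, frm_add]
    linarith
  · rw [toR_add, frm_add]
    linarith
  · rw [toR_add, toR_add, frm_add, frm_add', frm_add']
    linarith
  · rw [add_neg_cancel_right]
    rfl
  · rw [add_neg_cancel_right]
    rfl
  · have e : x + f 0 - (f 2 + f 0) = x - f 2 := by abel
    rw [e]
    rfl
  · have e : x + f 0 - (f 3 + f 0) = x - f 3 := by abel
    rw [e]
    rfl

theorem OState.stepF2 (h : OState κ K W n nC nD b bC bD ρ lab f x) : HasF κ K W n nC nD b bC bD ρ lab (mv 2 (labs lab f x)) := by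
  have hsb : Superbase ![f 0, f 1, f 3, f 2] := by
    have e : ![f 0, f 1, f 3, f 2] = fun l => f (Equiv.swap 2 3 l) := by
      funext l
      fin_cases l <;> rfl
    rw [e]
    exact superbase_perm h.sb _
  exact h.changeF (f 0) (f 1) (f 3) (f 2) x _ hsb h.wall (h.obt 0 3 (by decide)) (h.obt 0 2 (by decide))
    (h.obt 1 3 (by decide)) (h.obt 1 2 (by decide)) (h.obt 3 2 (by decide)) rfl rfl rfl rfl rfl rfl (oneP_mv 2 _ h.oct)

attribute [local semireducible] frm

theorem Budget.permI {h : ℝ} {mu : Fin 3 → ℝ} (B : Budget nC b bC bD ρ lab h mu) (σ : Equiv.Perm (Fin 3))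
    (τ : Equiv.Perm (Fin 5)) (h4 : τ 4 = 4) :
    Budget nC (fun i => b (σ i)) bC bD (fun i => ρ (σ i)) (fun z => τ (lab z)) h fun i => mu (σ i) where
  h0 := B.h0
  h1 := B.h1
  eta := by
    rw [Equiv.sum_comp σ fun i => ρ i * b i]
    exact B.eta
  mu0 := fun i => B.mu0 _
  rel := fun i => B.rel _
  cut := by
    rw [Equiv.sum_comp σ fun i => max 0 (1 - 1 / mu i)]
    exact B.cut
  ord := by
    rw [Equiv.sum_comp σ fun i => max 0 (1 - 1 / mu i), Equiv.sum_comp σ fun i => max 0 (1 - mu i)]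
    exact B.ord
  act := by
    obtain ⟨i, hi⟩ := B.act
    exact ⟨σ.symm i, by rw [Equiv.apply_symm_apply]; exact hi⟩
  act' := by
    obtain ⟨i, hi⟩ := B.act'
    exact ⟨σ.symm i, by rw [Equiv.apply_symm_apply]; exact hi⟩
  labCD := fun z hz => B.labCD z (τ.injective (by rw [hz, h4]))

/-- change of the names of the facets -/
theorem OState.namesB (h : OState κ K W n nC nD b bC bD ρ lab f x) {n' : Fin 3 → Fin 3 → ℝ}
    {b' : Fin 3 → ℝ} {ρ' : Fin 3 → ℝ} {t : ℝ} {mu' : Fin 3 → ℝ} (τ : Equiv.Perm (Fin 5))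
    (h5 : Five K W n' nC nD b' bC bD ρ' fun z => τ (lab z)) (hfr : ∀ x y, frm κ n' nC nD x y = frm κ n nC nD x y)
    (hone : OneP fun i => τ (labs lab f x i)) (hB : Budget nC b' bC bD ρ' (fun z => τ (lab z)) t mu') :
    HasB κ K W fun i => τ (labs lab f x i) :=
  ⟨n', nC, nD, b', bC, bD, ρ', fun z => τ (lab z), f, x, t, mu',
    ⟨h5, h.sb, fun l m hlm => by rw [hfr]; exact h.obt l m hlm, by rw [hfr]; exact h.wall, hone⟩, hB, rfl⟩

/-- the moves without the exchange of `C` and `D` -/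
theorem HasB.step {l : Fin 6 → Fin 5} (h : HasB κ K W l) (k : Fin 6) (hk : k ≠ 5) : HasB κ K W (mv k l) := by
  obtain ⟨n, nC, nD, b, bC, bD, ρ, lab, f, x, t, mu, h, B, rfl⟩ := h
  have key : ∀ k, HasF κ K W n nC nD b bC bD ρ lab (mv k (labs lab f x)) → HasB κ K W (mv k (labs lab f x)) := by
    rintro k ⟨f', x', h', hl⟩
    exact ⟨n, nC, nD, b, bC, bD, ρ, lab, f', x', t, mu, h', B, hl⟩
  fin_cases k
  · exact key 0 h.stepF0
  · exact key 1 h.stepF1
  · exact key 2 h.stepF2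
  · refine h.namesB (Equiv.swap 1 2)
      (h.five.permI (Equiv.swap 0 1) (Equiv.swap 1 2) (by decide) (by decide) (by decide)) ?_
      (oneP_mv 3 _ h.oct) (B.permI (Equiv.swap 0 1) (Equiv.swap 1 2) (by decide))
    intro x y
    unfold frm
    rw [Equiv.sum_comp (Equiv.swap (0 : Fin 3) 1) fun i => (n i ⬝ᵥ x) * (n i ⬝ᵥ y)]
  · refine h.namesB (Equiv.swap 2 3)
      (h.five.permI (Equiv.swap 1 2) (Equiv.swap 2 3) (by decide) (by decide) (by decide)) ?_
      (oneP_mv 4 _ h.oct) (B.permI (Equiv.swap 1 2) (Equiv.swap 2 3) (by decide))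
    intro x y
    unfold frm
    rw [Equiv.sum_comp (Equiv.swap (1 : Fin 3) 2) fun i => (n i ⬝ᵥ x) * (n i ⬝ᵥ y)]
  · exact absurd rfl hk

theorem HasB.word {l : Fin 6 → Fin 5} (h : HasB κ K W l) (w : List (Fin 6)) (hw : 5 ∉ w) : HasB κ K W (wd w l) := by
  induction w generalizing l with
  | nil => exact h
  | cons k w ih =>
    rw [List.mem_cons, not_or] at hw
    exact ih (h.step k (Ne.symm hw.1)) hw.2

end Pool.Agent.Helper1.FIVE
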