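import Mathlib
import Pool.Agent.Helper1.FIVE.UFacts
import Pool.Agent.Helper73.FX.Ell

/-!
# Coordinates and the inverse form of a wall state
-/

set_option autoImplicit false

namespace Pool.Agent.Helper1.FIVE

open Matrix
open Pool.Agent.Helper12.LW (LFree toR)
open Pool.Agent.Helper84.FL (Superbase)
open Pool.Agent.Helper20.FIVE

/-- every point has coordinates -/
theorem pt_surj {f : Fin 4 → Fin 3 → ℤ} (hf : Superbase f) (x : Fin 3 → ℝ) : ∃ y : Fin 3 → ℝ, pt f y = x := by
  obtain ⟨w, hw⟩ := Pool.Agent.Helper73.FX.exists_dual hf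
  exact exists_coord hw.coord hf.sum x

/-- the coordinates are unique -/
theorem pt_inj {f : Fin 4 → Fin 3 → ℤ} (hf : Superbase f) {y : Fin 3 → ℝ} (h : pt f y = 0) : y = 0 := by
  obtain ⟨w, hw⟩ := Pool.Agent.Helper73.FX.exists_dual hf
  funext i
  have h1 : toR (w i.castSucc) ⬝ᵥ pt f y = y i := by
    unfold pt
    rw [dotProduct_sum]
    rw [Finset.sum_eq_single i]
    · rw [dotProduct_smul, hw.pair, if_pos rfl, if_neg, sub_zero, smul_eq_mul, mul_one]
      intro h3
      have := congrArg Fin.val h3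
      simp at this
      have h4 := i.2
      omega
    · intro l _ hl
      rw [dotProduct_smul, hw.pair, if_neg, if_neg, sub_zero, smul_zero]
      · intro h3
        have := congrArg Fin.val h3
        simp at this
        have h4 := l.2
        omega
      · intro h3
        exact hl (Fin.castSucc_injective 3 h3)
    · intro h3
      exact absurd (Finset.mem_univ i) h3
  rw [← h1, h, dotProduct_zero]
  rfl

variable {κ : ℝ} {K : Set (Fin 3 → ℝ)} {W : ℝ} {n : Fin 3 → Fin 3 → ℝ} {nC nD : Fin 3 → ℝ} {b : Fin 3 → ℝ} {bC bD : ℝ}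
  {ρ : Fin 3 → ℝ} {lab : (Fin 3 → ℤ) → Fin 5} {f : Fin 4 → Fin 3 → ℤ} {x : Fin 3 → ℤ}

/-- the inverse of the form of all five normals -/
theorem Five.exists_Z5 (h : Five K W n nC nD b bC bD ρ lab) (hf : Superbase f) :
    ∃ Z : Matrix (Fin 3) (Fin 3) ℝ, ((V5 n nC nD f)ᵀ * V5 n nC nD f) * Z = 1 ∧
      Z * ((V5 n nC nD f)ᵀ * V5 n nC nD f) = 1 :=
  FIVE.exists_Z5 n nC nD f fun x hx => pt_inj hf (h.sep _ hx)

/-- the inverse of the merged form -/
theorem Five.exists_Z4 (h : Five K W n nC nD b bC bD ρ lab) (hf : Superbase f) :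
    ∃ Z : Matrix (Fin 3) (Fin 3) ℝ, ((FF (G4 n nC nD) f)ᵀ * FF (G4 n nC nD) f) * Z = 1 := by
  refine exists_Z h.sumG f fun x hx => pt_inj hf (h.sep _ fun i => ?_)
  have h1 := hx i.succ
  have h2 : G4 n nC nD i.succ = n i := by fin_cases i <;> rfl
  rwa [h2] at h1

end Pool.Agent.Helper1.FIVE
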